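import Pool.Agent.H964R2.Lang.Main

/-!
# Double covers of `E^r`
-/

namespace Pool.Agent.H964R2.Lang

open MvPolynomial

/-- Index set of a basis of the space of rational functions on `E` with a pole of order `≤ 4m` at
`O` and no other pole: `inl a` stands for `x^a` (`a ≤ 2m`), `inr b` for `x^b y` (`b ≤ 2m - 2`). -/
abbrev Mon (m : ℕ) : Type := Fin (2 * m + 1) ⊕ Fin (2 * m - 1)

/-- the function `x^a` or `x^b y` -/
def mon {m : ℕ} : Mon m → ℚ → ℚ → ℚ
  | .inl a, x, _ => x ^ (a : ℕ)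
  | .inr b, x, y => x ^ (b : ℕ) * y

/-- the function on `(E ∖ O)^r` with coefficients `c` -/
def fn {r m : ℕ} (c : (Fin r → Mon m) → ℚ) (x y : Fin r → ℚ) : ℚ :=
  ∑ s : Fin r → Mon m, c s * ∏ i, mon (s i) (x i) (y i)

/-- the index of the leading coefficient at the point of `{O, T}^r` given by `e`
(`false` for `O`, `true` for `T`): `x_i^{2m}` if the `i`-th point is `O`, `1` if it is `T` -/
def idx {r m : ℕ} (e : Fin r → Bool) : Fin r → Mon m :=
  fun i => .inl (if e i then 0 else Fin.last (2 * m))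

/-- homogenised monomials -/
noncomputable def hmon {r m : ℕ} (i : Fin r) : Mon m → MvPolynomial ((Fin r × Fin 3) ⊕ Fin 2) ℤ
  | .inl a => X (.inl (i, 0)) ^ (a : ℕ) * X (.inl (i, 2)) ^ (4 * m - 2 * (a : ℕ))
  | .inr b => X (.inl (i, 0)) ^ (b : ℕ) * X (.inl (i, 1)) *
      X (.inl (i, 2)) ^ (4 * m - 2 * (b : ℕ) - 3)

/-- the weights of the two fibre coordinates `u, w` -/
def nu (r m : ℕ) : Fin 2 → Fin r → ℕ := ![fun _ => 0, fun _ => 2 * m]

/-- the equation `w² = F u²` -/
noncomputable def eqn {r m : ℕ} (c : (Fin r → Mon m) → ℤ) : MvPolynomial ((Fin r × Fin 3) ⊕ Fin 2) ℤ :=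
  X (.inr 1) ^ 2 - (∑ s : Fin r → Mon m, C (c s) * ∏ i, hmon i (s i)) * X (.inr 0) ^ 2

theorem single_smul {r : ℕ} (i : Fin r) (n k : ℕ) :
    k • ((Pi.single i n : Fin r → ℕ), (0 : ℕ)) = (Pi.single i (k * n), 0) := by
  ext j
  · simp only [Prod.smul_mk, Pi.smul_apply, smul_eq_mul]
    by_cases h : j = i
    · subst h; simp
    · simp [Pi.single_eq_of_ne h]
  · simp

theorem single_add {r : ℕ} (i : Fin r) (n k : ℕ) :
    ((Pi.single i n : Fin r → ℕ), (0 : ℕ)) + (Pi.single i k, 0) = (Pi.single i (n + k), 0) := by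
  ext j
  · simp only [Prod.mk_add_mk, Pi.add_apply]
    by_cases h : j = i
    · subst h; simp
    · simp [Pi.single_eq_of_ne h]
  · simp

theorem hmon_hom {r m : ℕ} (i : Fin r) (s : Mon m) :
    IsWeightedHomogeneous (wt (nu r m)) (hmon i s) (Pi.single i (4 * m), 0) := by
  rcases s with a | b
  · have h0 := isWeightedHomogeneous_X ℤ (wt (nu r m)) (.inl (i, 0))
    have h2 := isWeightedHomogeneous_X ℤ (wt (nu r m)) (.inl (i, 2))
    have h := (h0.pow (a : ℕ)).mul (h2.pow (4 * m - 2 * (a : ℕ)))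
    have e : (a : ℕ) • wt (nu r m) (.inl (i, 0)) + (4 * m - 2 * (a : ℕ)) • wt (nu r m) (.inl (i, 2)) =
        (Pi.single i (4 * m), 0) := by
      change (a : ℕ) • ((Pi.single i 2 : Fin r → ℕ), (0 : ℕ)) +
        (4 * m - 2 * (a : ℕ)) • ((Pi.single i 1 : Fin r → ℕ), (0 : ℕ)) = _
      rw [single_smul, single_smul, single_add]
      have := a.2
      congr 2
      omega
    rw [e] at h
    exact h
  · have h0 := isWeightedHomogeneous_X ℤ (wt (nu r m)) (.inl (i, 0))
    have h1 := isWeightedHomogeneous_X ℤ (wt (nu r m)) (.inl (i, 1))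
    have h2 := isWeightedHomogeneous_X ℤ (wt (nu r m)) (.inl (i, 2))
    have h := ((h0.pow (b : ℕ)).mul h1).mul (h2.pow (4 * m - 2 * (b : ℕ) - 3))
    have e : (b : ℕ) • wt (nu r m) (.inl (i, 0)) + wt (nu r m) (.inl (i, 1)) +
        (4 * m - 2 * (b : ℕ) - 3) • wt (nu r m) (.inl (i, 2)) = (Pi.single i (4 * m), 0) := by
      change (b : ℕ) • ((Pi.single i 2 : Fin r → ℕ), (0 : ℕ)) + ((Pi.single i 3 : Fin r → ℕ), (0 : ℕ)) +
        (4 * m - 2 * (b : ℕ) - 3) • ((Pi.single i 1 : Fin r → ℕ), (0 : ℕ)) = _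
      rw [single_smul, single_smul, single_add, single_add]
      have := b.2
      congr 2
      omega
    rw [e] at h
    exact h

theorem sum_single {r : ℕ} (n : ℕ) :
    ∑ i : Fin r, ((Pi.single i n : Fin r → ℕ), (0 : ℕ)) = (fun _ => n, 0) := by
  ext j
  · rw [Prod.fst_sum, Finset.sum_apply]
    simp
  · rw [Prod.snd_sum]; simp

theorem eqn_hom {r m : ℕ} (c : (Fin r → Mon m) → ℤ) :
    IsWeightedHomogeneous (wt (nu r m)) (eqn c) (fun _ => 4 * m, 2) := by
  have hu := isWeightedHomogeneous_X ℤ (wt (nu r m)) (.inr 0)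
  have hw := isWeightedHomogeneous_X ℤ (wt (nu r m)) (.inr 1)
  unfold eqn
  apply IsWeightedHomogeneous.sub
  · have h := hw.pow 2
    have e : 2 • wt (nu r m) (.inr 1) = (fun _ => 4 * m, 2) := by
      change 2 • ((fun _ => 2 * m : Fin r → ℕ), (1 : ℕ)) = _
      ext j
      · simp only [Prod.smul_mk, Pi.smul_apply, smul_eq_mul]; ring
      · simp
    rw [e] at h
    exact h
  · have h1 : IsWeightedHomogeneous (wt (nu r m))
        (∑ s : Fin r → Mon m, C (c s) * ∏ i, hmon i (s i) : MvPolynomial _ ℤ) (fun _ => 4 * m, 0) := by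
      apply IsWeightedHomogeneous.sum
      intro s _
      apply IsWeightedHomogeneous.C_mul
      rw [← sum_single]
      exact IsWeightedHomogeneous.prod _ _ _ fun i _ => hmon_hom i (s i)
    have h := h1.mul (hu.pow 2)
    have e : ((fun _ => 4 * m : Fin r → ℕ), (0 : ℕ)) + 2 • wt (nu r m) (.inr 0) =
        (fun _ => 4 * m, 2) := by
      change ((fun _ => 4 * m : Fin r → ℕ), (0 : ℕ)) + 2 • ((fun _ => 0 : Fin r → ℕ), (1 : ℕ)) = _
      ext j
      · simp
      · simp
    rw [e] at h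
    exact h

theorem hmon_eval {r m : ℕ} (x y : Fin r → ℚ) (z : Fin 2 → ℚ) (i : Fin r) (s : Mon m) :
    aeval (Sum.elim (fun q : Fin r × Fin 3 => ![x q.1, y q.1, 1] q.2) z) (hmon i s) =
      mon s (x i) (y i) := by
  rcases s with a | b
  · simp [hmon, mon]
  · simp [hmon, mon]

theorem hmon_corner {R : Type*} [CommRing R] {r m : ℕ} (e : Fin r → Bool) (z : Fin 2 → R) (i : Fin r)
    (s : Mon m) :
    aeval (Sum.elim (fun q : Fin r × Fin 3 => corner R (e q.1) q.2) z) (hmon i s) =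
      if s = idx e i then 1 else 0 := by
  rcases s with a | b
  · rcases he : e i with _ | _
    · have e1 : (Sum.inl a : Mon m) = idx e i ↔ (a : ℕ) = 2 * m := by
        simp only [idx, he, Sum.inl.injEq, Bool.false_eq_true, if_false]
        rw [Fin.ext_iff]; rfl
      have e2 : aeval (Sum.elim (fun q : Fin r × Fin 3 => corner R (e q.1) q.2) z)
          (hmon i (Sum.inl a : Mon m)) = (1 : R) ^ (a : ℕ) * (0 : R) ^ (4 * m - 2 * (a : ℕ)) := by
        simp only [hmon, map_mul, map_pow, aeval_X, Sum.elim_inl, he]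
        rfl
      rw [e2, one_pow, one_mul]
      by_cases h : (a : ℕ) = 2 * m
      · rw [if_pos (e1.2 h), h]
        have : 4 * m - 2 * (2 * m) = 0 := by omega
        rw [this, pow_zero]
      · rw [if_neg (fun h' => h (e1.1 h')), zero_pow]
        have := a.2
        omega
    · have e1 : (Sum.inl a : Mon m) = idx e i ↔ (a : ℕ) = 0 := by
        simp only [idx, he, Sum.inl.injEq, if_true]
        rw [Fin.ext_iff]; rfl
      have e2 : aeval (Sum.elim (fun q : Fin r × Fin 3 => corner R (e q.1) q.2) z)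
          (hmon i (Sum.inl a : Mon m)) = (0 : R) ^ (a : ℕ) * (1 : R) ^ (4 * m - 2 * (a : ℕ)) := by
        simp only [hmon, map_mul, map_pow, aeval_X, Sum.elim_inl, he]
        rfl
      rw [e2, one_pow, mul_one]
      by_cases h : (a : ℕ) = 0
      · rw [if_pos (e1.2 h), h, pow_zero]
      · rw [if_neg (fun h' => h (e1.1 h')), zero_pow h]
  · have e1 : (Sum.inr b : Mon m) ≠ idx e i := by simp [idx]
    rw [if_neg e1]
    rcases he : e i with _ | _
    · have e2 : aeval (Sum.elim (fun q : Fin r × Fin 3 => corner R (e q.1) q.2) z)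
          (hmon i (Sum.inr b : Mon m)) = (1 : R) ^ (b : ℕ) * 1 * (0 : R) ^ (4 * m - 2 * (b : ℕ) - 3) := by
        simp only [hmon, map_mul, map_pow, aeval_X, Sum.elim_inl, he]
        rfl
      rw [e2, zero_pow, mul_zero]
      have := b.2
      omega
    · have e2 : aeval (Sum.elim (fun q : Fin r × Fin 3 => corner R (e q.1) q.2) z)
          (hmon i (Sum.inr b : Mon m)) = (0 : R) ^ (b : ℕ) * 0 * (1 : R) ^ (4 * m - 2 * (b : ℕ) - 3) := by
        simp only [hmon, map_mul, map_pow, aeval_X, Sum.elim_inl, he]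
        rfl
      rw [e2]; ring

theorem eqn_eval {r m : ℕ} (c : (Fin r → Mon m) → ℤ) (x y : Fin r → ℚ) (z : Fin 2 → ℚ) :
    aeval (Sum.elim (fun q : Fin r × Fin 3 => ![x q.1, y q.1, 1] q.2) z) (eqn c) =
      z 1 ^ 2 - fn (fun s => (c s : ℚ)) x y * z 0 ^ 2 := by
  simp only [eqn, fn, map_sub, map_mul, map_pow, aeval_X, Sum.elim_inr, map_sum, map_prod,
    hmon_eval, aeval_C]
  rfl

theorem eqn_corner {R : Type*} [CommRing R] {r m : ℕ} (c : (Fin r → Mon m) → ℤ) (e : Fin r → Bool)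
    (z : Fin 2 → R) :
    aeval (Sum.elim (fun q : Fin r × Fin 3 => corner R (e q.1) q.2) z) (eqn c) =
      z 1 ^ 2 - (c (idx e) : R) * z 0 ^ 2 := by
  classical
  have h : ∑ s : Fin r → Mon m, ((algebraMap ℤ R) (c s)) * ∏ i, (if s i = idx e i then (1 : R) else 0) =
      (c (idx e) : R) := by
    rw [Finset.sum_eq_single (idx e)]
    · simp
    · intro s _ hs
      obtain ⟨i, hi⟩ := Function.ne_iff.1 hs
      rw [Finset.prod_eq_zero (Finset.mem_univ i) (if_neg hi), mul_zero]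
    · intro h; exact absurd (Finset.mem_univ _) h
  simp only [eqn, map_sub, map_mul, map_pow, aeval_X, Sum.elim_inr, map_sum, map_prod,
    hmon_corner, aeval_C]
  rw [h]

/-- **Double covers, integral coefficients** -/
theorem cover {r m : ℕ} (c : (Fin r → Mon m) → ℤ)
    (hc : ∀ e : Fin r → Bool, (∃ i, e i = false) → ∃ k : ℤ, c (idx e) = 17 * k ^ 2 ∧
      ∀ p, Inert p → ¬ (p : ℤ) ∣ k)
    (x y : Fin r → ℚ) (w : ℚ) (hE : ∀ i, y i ^ 2 = x i ^ 3 - 23 * x i)
    (hw : w ^ 2 = fn (fun s => (c s : ℚ)) x y) : ∀ i, x i = 0 ∧ y i = 0 := by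
  apply general (nu r m) (J := Unit) (fun _ => eqn c) (fun _ => (fun _ => 4 * m, 2))
    (fun _ => eqn_hom c) _ x y hE ![1, w]
  · intro h
    have := congrFun h 0
    exact one_ne_zero this
  · intro _
    rw [eqn_eval]
    change w ^ 2 - fn (fun s => (c s : ℚ)) x y * 1 ^ 2 = 0
    rw [hw]; ring
  · intro p hp e he ζ hζ
    have hpF : Fact p.Prime := ⟨hp.1⟩
    have h1 := hζ ()
    rw [eqn_corner] at h1
    obtain ⟨k, hk, hk2⟩ := hc e he
    rw [hk] at h1
    push_cast at h1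
    have hk0 : (k : ZMod p) ≠ 0 := fun h => hk2 p hp ((ZMod.intCast_zmod_eq_zero_iff_dvd _ p).1 h)
    have h2 : ζ 0 = 0 := by
      by_contra hne
      apply hp.2.2
      refine ⟨ζ 1 / (k * ζ 0), ?_⟩
      have h3 : ζ 1 ^ 2 = 17 * (k : ZMod p) ^ 2 * ζ 0 ^ 2 := sub_eq_zero.1 h1
      field_simp
      linear_combination - h3
    have h3 : ζ 1 = 0 := by
      rw [h2] at h1
      have : ζ 1 ^ 2 = 0 := by linear_combination h1
      exact pow_eq_zero_iff two_ne_zero |>.1 this
    funext j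
    fin_cases j
    · exact h2
    · exact h3

end Pool.Agent.H964R2.Lang
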