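import Mathlib

/-!
# Descent lemmas for `w² = u⁴ - 23 D⁴`
-/

namespace Pool.Agent.H964R2.Lang

theorem pow4 {x y d : ℕ} (hc : Nat.Coprime x y) (h : x * y = d ^ 4) :
    ∃ X Y : ℕ, x = X ^ 4 ∧ y = Y ^ 4 ∧ d = X * Y := by
  obtain ⟨X, hX⟩ := exists_eq_pow_of_mul_eq_pow (a := x) (b := y) (c := d) (k := 4)
    (Nat.isUnit_iff.2 hc) h
  obtain ⟨Y, hY⟩ := exists_eq_pow_of_mul_eq_pow (a := y) (b := x) (c := d) (k := 4)
    (Nat.isUnit_iff.2 hc.symm) (by rw [mul_comm]; exact h)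
  refine ⟨X, Y, hX, hY, ?_⟩
  have : d ^ 4 = (X * Y) ^ 4 := by rw [← h, hX, hY]; ring
  exact Nat.pow_left_injective (by norm_num : 4 ≠ 0) this

theorem coprime_of_prime {x y : ℕ} (h : ∀ p : ℕ, p.Prime → p ∣ x → p ∣ y → False) :
    Nat.Coprime x y :=
  Nat.coprime_of_dvd fun p hp h1 h2 => h p hp h1 h2

theorem key23 : ∀ a b : ZMod 23, a ^ 2 + b ^ 2 = 0 → a = 0 ∧ b = 0 := by decide

/-- squares modulo 23: `-1` is not a square -/
theorem sq_add_sq_23 {x y : ℕ} (h : 23 ∣ x ^ 2 + y ^ 2) : 23 ∣ x ∧ 23 ∣ y := by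
  have h1 : ((x : ZMod 23)) ^ 2 + (y : ZMod 23) ^ 2 = 0 := by
    have := (ZMod.natCast_eq_zero_iff (x ^ 2 + y ^ 2) 23).2 h
    push_cast at this
    exact this
  obtain ⟨h2, h3⟩ := key23 _ _ h1
  exact ⟨(ZMod.natCast_eq_zero_iff x 23).1 h2, (ZMod.natCast_eq_zero_iff y 23).1 h3⟩

theorem prime23 : Nat.Prime 23 := by norm_num

/-- factorisations `x y = 92 d⁴` -/
theorem fac92 {x y d : ℕ} (hc : Nat.Coprime x y) (h : x * y = 92 * d ^ 4) :
    ∃ X Y : ℕ, d = X * Y ∧ ((x = 92 * X ^ 4 ∧ y = Y ^ 4) ∨ (x = Y ^ 4 ∧ y = 92 * X ^ 4) ∨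
      (x = 4 * X ^ 4 ∧ y = 23 * Y ^ 4) ∨ (x = 23 * Y ^ 4 ∧ y = 4 * X ^ 4)) := by
  -- where is 23
  have h23 : 23 ∣ x * y := by rw [h]; exact ⟨4 * d ^ 4, by ring⟩
  have h4 : 4 ∣ x * y := by rw [h]; exact ⟨23 * d ^ 4, by ring⟩
  have h4' : 4 ∣ x ∨ 4 ∣ y := by
    rcases Nat.even_or_odd x with hx | hx
    · left
      have : Nat.Coprime 4 y := by
        have h2 : Nat.Coprime 2 y := Nat.Coprime.coprime_dvd_left hx.two_dvd hc
        exact (Nat.Coprime.pow_left 2 h2 : Nat.Coprime (2 ^ 2) y)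
      exact this.dvd_of_dvd_mul_right h4
    · right
      have : Nat.Coprime 4 x := by
        have h2 : Nat.Coprime 2 x := (Nat.coprime_two_left).2 hx
        exact (Nat.Coprime.pow_left 2 h2 : Nat.Coprime (2 ^ 2) x)
      exact this.dvd_of_dvd_mul_left h4
  rcases (prime23.dvd_mul).1 h23 with ⟨x', rfl⟩ | ⟨y', rfl⟩
  · rcases h4' with h5 | ⟨y'', rfl⟩
    · obtain ⟨x'', rfl⟩ : 4 ∣ x' := (by norm_num : Nat.Coprime 4 23).dvd_of_dvd_mul_left h5
      have h6 : x'' * y = d ^ 4 := by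
        have : 92 * (x'' * y) = 92 * d ^ 4 := by rw [← h]; ring
        omega
      have hc' : Nat.Coprime x'' y := Nat.Coprime.coprime_dvd_left ⟨92, by ring⟩ hc
      obtain ⟨X, Y, rfl, rfl, hd⟩ := pow4 hc' h6
      exact ⟨X, Y, hd, Or.inl ⟨by ring, rfl⟩⟩
    · have h6 : x' * y'' = d ^ 4 := by
        have : 92 * (x' * y'') = 92 * d ^ 4 := by rw [← h]; ring
        omega
      have hc' : Nat.Coprime x' y'' :=
        Nat.Coprime.coprime_dvd_left ⟨23, by ring⟩ (Nat.Coprime.coprime_dvd_right ⟨4, by ring⟩ hc)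
      obtain ⟨Y, X, rfl, rfl, hd⟩ := pow4 hc' h6
      exact ⟨X, Y, by rw [hd]; ring, Or.inr (Or.inr (Or.inr ⟨rfl, rfl⟩))⟩
  · rcases h4' with ⟨x'', rfl⟩ | h5
    · have h6 : x'' * y' = d ^ 4 := by
        have : 92 * (x'' * y') = 92 * d ^ 4 := by rw [← h]; ring
        omega
      have hc' : Nat.Coprime x'' y' :=
        Nat.Coprime.coprime_dvd_left ⟨4, by ring⟩ (Nat.Coprime.coprime_dvd_right ⟨23, by ring⟩ hc)
      obtain ⟨X, Y, rfl, rfl, hd⟩ := pow4 hc' h6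
      exact ⟨X, Y, hd, Or.inr (Or.inr (Or.inl ⟨rfl, rfl⟩))⟩
    · obtain ⟨y'', rfl⟩ : 4 ∣ y' := (by norm_num : Nat.Coprime 4 23).dvd_of_dvd_mul_left h5
      have h6 : x * y'' = d ^ 4 := by
        have : 92 * (x * y'') = 92 * d ^ 4 := by rw [← h]; ring
        omega
      have hc' : Nat.Coprime x y'' := Nat.Coprime.coprime_dvd_right ⟨92, by ring⟩ hc
      obtain ⟨Y, X, rfl, rfl, hd⟩ := pow4 hc' h6
      exact ⟨X, Y, by rw [hd]; ring, Or.inr (Or.inl ⟨rfl, by ring⟩)⟩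

/-- factorisations `x y = 23 d⁴` -/
theorem fac23 {x y d : ℕ} (hc : Nat.Coprime x y) (h : x * y = 23 * d ^ 4) :
    ∃ X Y : ℕ, d = X * Y ∧ ((x = 23 * X ^ 4 ∧ y = Y ^ 4) ∨ (x = Y ^ 4 ∧ y = 23 * X ^ 4)) := by
  have h23 : 23 ∣ x * y := by rw [h]; exact ⟨d ^ 4, by ring⟩
  rcases (prime23.dvd_mul).1 h23 with ⟨x', rfl⟩ | ⟨y', rfl⟩
  · have h6 : x' * y = d ^ 4 := by
      have : 23 * (x' * y) = 23 * d ^ 4 := by rw [← h]; ring
      omega
    have hc' : Nat.Coprime x' y := Nat.Coprime.coprime_dvd_left ⟨23, by ring⟩ hc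
    obtain ⟨X, Y, rfl, rfl, hd⟩ := pow4 hc' h6
    exact ⟨X, Y, hd, Or.inl ⟨rfl, rfl⟩⟩
  · have h6 : x * y' = d ^ 4 := by
      have : 23 * (x * y') = 23 * d ^ 4 := by rw [← h]; ring
      omega
    have hc' : Nat.Coprime x y' := Nat.Coprime.coprime_dvd_right ⟨23, by ring⟩ hc
    obtain ⟨Y, X, rfl, rfl, hd⟩ := pow4 hc' h6
    exact ⟨X, Y, by rw [hd]; ring, Or.inr ⟨rfl, rfl⟩⟩

/-- `x² = y² + 4 k` with `x, y` coprime odd: `x - y = 2 α`, `x + y = 2 β`, `α β = k` -/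
theorem split {x y k : ℕ} (hx : Odd x) (hy : Odd y) (hc : Nat.Coprime x y)
    (h : x ^ 2 = y ^ 2 + 4 * k) :
    ∃ α β : ℕ, Nat.Coprime α β ∧ α * β = k ∧ x = α + β ∧ β = α + y := by
  have hyx : y ≤ x := by
    by_contra hcon
    push Not at hcon
    have : x ^ 2 < y ^ 2 := Nat.pow_lt_pow_left hcon (by norm_num)
    omega
  obtain ⟨a, ha⟩ := hx
  obtain ⟨b, hb⟩ := hy
  have hab : b ≤ a := by omega
  refine ⟨a - b, a - b + y, ?_, ?_, ?_, rfl⟩
  · apply coprime_of_prime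
    intro p hp h1 h2
    have h3 : p ∣ y := (Nat.dvd_add_right h1).1 h2
    have h4 : p ∣ x := by
      have : x = (a - b) + (a - b + y) := by omega
      rw [this]; exact Nat.dvd_add h1 h2
    have h5 := Nat.dvd_gcd h4 h3
    rw [Nat.Coprime] at hc
    rw [hc] at h5
    exact hp.one_lt.ne' (Nat.dvd_one.1 h5)
  · obtain ⟨c, rfl⟩ := Nat.exists_eq_add_of_le hab
    have e : b + c - b = c := by omega
    rw [e]
    subst ha hb
    have : 4 * (c * (c + (2 * b + 1))) = 4 * k := by nlinarith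
    omega
  · omega

theorem even_pow4_mod {n : ℕ} : n ^ 4 % 4 = 0 ∨ n ^ 4 % 4 = 1 := by
  have : n % 4 = 0 ∨ n % 4 = 1 ∨ n % 4 = 2 ∨ n % 4 = 3 := by omega
  rcases this with h | h | h | h <;> simp [Nat.pow_mod, h]

theorem sq_mod4 {n : ℕ} : n ^ 2 % 4 = 0 ∨ n ^ 2 % 4 = 1 := by
  have : n % 4 = 0 ∨ n % 4 = 1 ∨ n % 4 = 2 ∨ n % 4 = 3 := by omega
  rcases this with h | h | h | h <;> simp [Nat.pow_mod, h]

/-- halving a solution with `D` even -/
theorem halve {u D w : ℕ} (hD : 0 < D) (hc : Nat.Coprime u D)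
    (h : u ^ 4 = w ^ 2 + 23 * D ^ 4) (hDe : Even D) :
    ∃ a b r : ℕ, 0 < a ∧ 0 < b ∧ 0 < r ∧ Nat.Coprime a b ∧ a ^ 4 = r ^ 2 + 23 * b ^ 4 ∧
      u = a ^ 4 + 23 * b ^ 4 ∧ D = 2 * a * b * r := by
  have huo : Odd u := by
    rcases Nat.even_or_odd u with h1 | h1
    · exfalso
      have := Nat.dvd_gcd h1.two_dvd hDe.two_dvd
      rw [Nat.Coprime] at hc
      rw [hc] at this
      omega
    · exact h1
  have hu : 0 < u := huo.pos
  have hwo : Odd w := by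
    rcases Nat.even_or_odd w with h1 | h1
    · exfalso
      have h2 : Odd (u ^ 4) := huo.pow
      rw [h] at h2
      have h3 : Even (w ^ 2 + 23 * D ^ 4) := by
        apply Even.add
        · exact h1.pow_of_ne_zero (by norm_num)
        · exact (hDe.pow_of_ne_zero (by norm_num)).mul_left _
      exact (Nat.not_even_iff_odd.2 h2) h3
    · exact h1
  obtain ⟨d, hd⟩ := hDe
  have hd' : D = 2 * d := by omega
  have hdpos : 0 < d := by omega
  have hcw : Nat.Coprime (u ^ 2) w := by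
    apply coprime_of_prime
    intro p hp h1 h2
    have h3 : p ∣ u := hp.dvd_of_dvd_pow h1
    have h4 : p ^ 2 ∣ 23 * D ^ 4 := by
      have h5 : p ^ 2 ∣ u ^ 4 := by
        have := pow_dvd_pow_of_dvd h3 4
        exact (pow_dvd_pow p (by norm_num : 2 ≤ 4)).trans this
      rw [h] at h5
      exact (Nat.dvd_add_right (pow_dvd_pow_of_dvd h2 2)).1 h5
    have h6 : Nat.Coprime p D := Nat.Coprime.coprime_dvd_left h3 hc
    have h7 : Nat.Coprime (p ^ 2) (D ^ 4) := Nat.Coprime.pow _ _ h6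
    have h8 : p ^ 2 ∣ 23 := h7.dvd_of_dvd_mul_right h4
    have h9 : p ∣ 23 := (dvd_pow_self p (by norm_num)).trans h8
    rcases (Nat.dvd_prime prime23).1 h9 with h10 | h10
    · exact hp.one_lt.ne' h10
    · rw [h10] at h8; norm_num at h8
  obtain ⟨α, β, hαβ, hk, hs, ht⟩ := split (k := 92 * d ^ 4) (huo.pow (n := 2)) hwo hcw (by
    have : (u ^ 2) ^ 2 = u ^ 4 := by ring
    rw [this, h, hd']; ring)
  obtain ⟨X, Y, hXY, hcase⟩ := fac92 hαβ hk
  -- `u² = Y⁴ + 92 X⁴`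
  have hu2 : u ^ 2 = Y ^ 4 + 92 * X ^ 4 := by
    rcases hcase with ⟨h1, h2⟩ | ⟨h1, h2⟩ | ⟨h1, h2⟩ | ⟨h1, h2⟩
    · rw [hs, h1, h2]; ring
    · rw [hs, h1, h2]
    · exfalso
      have h3 : u ^ 2 = 4 * X ^ 4 + 23 * Y ^ 4 := by rw [hs, h1, h2]
      have h4 : u ^ 2 % 4 = 1 := by
        rcases sq_mod4 (n := u) with h5 | h5
        · exfalso
          have h6 : Odd (u ^ 2) := huo.pow
          rw [Nat.odd_iff] at h6; omega
        · exact h5
      rcases even_pow4_mod (n := Y) with h5 | h5 <;> omega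
    · exfalso
      have h3 : u ^ 2 = 4 * X ^ 4 + 23 * Y ^ 4 := by rw [hs, h1, h2]; ring
      have h4 : u ^ 2 % 4 = 1 := by
        rcases sq_mod4 (n := u) with h5 | h5
        · exfalso
          have h6 : Odd (u ^ 2) := huo.pow
          rw [Nat.odd_iff] at h6; omega
        · exact h5
      rcases even_pow4_mod (n := Y) with h5 | h5 <;> omega
  have hXpos : 0 < X := by
    rcases Nat.eq_zero_or_pos X with h1 | h1
    · rw [h1, zero_mul] at hXY; omega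
    · exact h1
  have hYpos : 0 < Y := by
    rcases Nat.eq_zero_or_pos Y with h1 | h1
    · rw [h1, mul_zero] at hXY; omega
    · exact h1
  have hYo : Odd Y := by
    rcases Nat.even_or_odd Y with h1 | h1
    · exfalso
      have h2 : Odd (u ^ 2) := huo.pow
      rw [hu2] at h2
      have h3 : Even (Y ^ 4 + 92 * X ^ 4) := by
        apply Even.add
        · exact h1.pow_of_ne_zero (by norm_num)
        · exact (by decide : Even 92).mul_right _
      exact (Nat.not_even_iff_odd.2 h2) h3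
    · exact h1
  have hcuY : Nat.Coprime u Y := by
    apply Nat.Coprime.coprime_dvd_right _ hc
    exact ⟨2 * X, by rw [hd', hXY]; ring⟩
  obtain ⟨α', β', hαβ', hk', hs', ht'⟩ := split (x := u) (y := Y ^ 2) (k := 23 * X ^ 4) huo
    (hYo.pow) (Nat.Coprime.pow_right 2 hcuY) (by rw [hu2]; ring)
  obtain ⟨b, a, hba, hcase'⟩ := fac23 hαβ' hk'
  have hbpos : 0 < b := by
    rcases Nat.eq_zero_or_pos b with h1 | h1
    · rw [h1, zero_mul] at hba; omega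
    · exact h1
  have hapos : 0 < a := by
    rcases Nat.eq_zero_or_pos a with h1 | h1
    · rw [h1, mul_zero] at hba; omega
    · exact h1
  rcases hcase' with ⟨h1, h2⟩ | ⟨h1, h2⟩
  · refine ⟨a, b, Y, hapos, hbpos, hYpos, ?_, ?_, ?_, ?_⟩
    · rw [h1, h2] at hαβ'
      have h3 : Nat.Coprime (b ^ 4) (a ^ 4) := Nat.Coprime.coprime_dvd_left ⟨23, by ring⟩ hαβ'
      have h4 : Nat.Coprime b a :=
        Nat.Coprime.coprime_dvd_left (dvd_pow_self b (by norm_num))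
          (Nat.Coprime.coprime_dvd_right (dvd_pow_self a (by norm_num)) h3)
      exact h4.symm
    · rw [← h1, ← h2, ht']; ring
    · rw [← h1, ← h2, hs']; ring
    · rw [hd', hXY, hba]; ring
  · exfalso
    -- `23 b⁴ = a⁴ + Y²`
    have h3 : 23 * b ^ 4 = (a ^ 2) ^ 2 + Y ^ 2 := by
      rw [← h2, ht', h1]; ring
    obtain ⟨h4, h5⟩ := sq_add_sq_23 (x := a ^ 2) (y := Y) ⟨b ^ 4, h3.symm⟩
    have h6 : 23 ∣ a := prime23.dvd_of_dvd_pow h4
    obtain ⟨a', rfl⟩ := h6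
    obtain ⟨Y', hY'⟩ := h5
    have h7 : 23 ∣ b := by
      have : b ^ 4 = 23 * (23 ^ 2 * a' ^ 4 + Y' ^ 2) := by
        have : 23 * b ^ 4 = 23 * (23 * (23 ^ 2 * a' ^ 4 + Y' ^ 2)) := by rw [h3, hY']; ring
        omega
      exact prime23.dvd_of_dvd_pow (n := 4) ⟨_, this⟩
    rw [h1, h2] at hαβ'
    have h8 : 23 ∣ Nat.gcd ((23 * a') ^ 4) (23 * b ^ 4) :=
      Nat.dvd_gcd (dvd_pow (Dvd.intro _ rfl) (by norm_num)) (Dvd.intro _ rfl)
    rw [Nat.Coprime] at hαβ'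
    rw [hαβ'] at h8
    omega

end Pool.Agent.H964R2.Lang
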