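import Mathlib

/-!
# Heights of `Q ± P0`
-/

namespace Pool.Agent.H964R2.Lang

theorem icoprime_of_prime {x y : ℤ}
    (h : ∀ p : ℕ, p.Prime → (p : ℤ) ∣ x → (p : ℤ) ∣ y → False) : IsCoprime x y := by
  rw [Int.isCoprime_iff_gcd_eq_one]
  by_contra hne
  obtain ⟨p, hp, hpd⟩ := Nat.exists_prime_and_dvd hne
  exact h p hp ((Int.natCast_dvd_natCast.2 hpd).trans (Int.gcd_dvd_left ..))
    ((Int.natCast_dvd_natCast.2 hpd).trans (Int.gcd_dvd_right ..))

theorem inot_both {x y : ℤ} (h : IsCoprime x y) {p : ℕ} (hp : p.Prime) (h1 : (p : ℤ) ∣ x)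
    (h2 : (p : ℤ) ∣ y) : False := by
  have h3 := (Int.isCoprime_iff_gcd_eq_one.1 h)
  have h4 : (p : ℤ) ∣ (Int.gcd x y : ℤ) := Int.dvd_coe_gcd h1 h2
  rw [h3] at h4
  have h5 : p ∣ 1 := by exact_mod_cast h4
  exact hp.one_lt.ne' (Nat.dvd_one.1 h5)

theorem bezout3 {x y z : ℤ} (h : ∀ p : ℕ, p.Prime → (p : ℤ) ∣ x → (p : ℤ) ∣ y → (p : ℤ) ∣ z → False) :
    ∃ u v t : ℤ, u * x + v * y + t * z = 1 := by
  have h1 : IsCoprime ((Int.gcd x y : ℕ) : ℤ) z := by
    apply icoprime_of_prime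
    intro p hp p1 p2
    have p3 : p ∣ Int.gcd x y := by exact_mod_cast p1
    refine h p hp ?_ ?_ p2
    · exact (Int.natCast_dvd_natCast.2 p3).trans (Int.gcd_dvd_left ..)
    · exact (Int.natCast_dvd_natCast.2 p3).trans (Int.gcd_dvd_right ..)
  obtain ⟨m, n, hmn⟩ := h1
  have h2 := Int.gcd_eq_gcd_ab x y
  refine ⟨m * Int.gcdA x y, m * Int.gcdB x y, n, ?_⟩
  rw [← hmn, h2]; ring

theorem mul_gt {x y M : ℤ} (hM : 0 < M) (hx : 30 * M < x) (hy : 30 * M < y) :
    (900 * M ^ 2) ^ 2 < x ^ 2 * y ^ 2 := by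
  have h1 : 900 * M ^ 2 < x * y := by nlinarith
  have h2 : 0 ≤ 900 * M ^ 2 := by positivity
  calc (900 * M ^ 2) ^ 2 < (x * y) ^ 2 := by apply pow_lt_pow_left₀ h1 h2 (by norm_num)
    _ = x ^ 2 * y ^ 2 := by ring

theorem trans_height {u D p q r s M : ℤ} (hu : 0 < u) (hD : 0 < D) (hue : Even u) (hDo : Odd D)
    (hne : 25 * u ^ 2 - 324 * D ^ 2 ≠ 0) (hp : 0 < p) (hq : 0 < q) (hr : 0 < r) (hs : 0 < s)
    (hpq : IsCoprime p q) (hrs : IsCoprime r s) (huM : u ≤ M) (hDM : D ≤ M)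
    (h1 : p ^ 2 * r ^ 2 * (25 * u ^ 2 - 324 * D ^ 2) ^ 2 =
      q ^ 2 * s ^ 2 * (324 * u ^ 2 + 575 * D ^ 2) ^ 2)
    (h2 : (p ^ 2 * s ^ 2 + r ^ 2 * q ^ 2) * (25 * u ^ 2 - 324 * D ^ 2) ^ 2 =
      q ^ 2 * s ^ 2 * (2 * (25 * u ^ 2 + 324 * D ^ 2) * (324 * u ^ 2 - 575 * D ^ 2))) :
    (Even q ∧ Even s) ∧ ((p ≤ 30 * M ∧ q ≤ 30 * M) ∨ (r ≤ 30 * M ∧ s ≤ 30 * M)) := by
  set δ := 25 * u ^ 2 - 324 * D ^ 2 with hδ
  set N := 324 * u ^ 2 + 575 * D ^ 2 with hN
  set f := 2 * (25 * u ^ 2 + 324 * D ^ 2) * (324 * u ^ 2 - 575 * D ^ 2) with hf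
  set N1 := q ^ 2 * s ^ 2 with hN1
  set N2 := p ^ 2 * s ^ 2 + r ^ 2 * q ^ 2 with hN2
  set N3 := p ^ 2 * r ^ 2 with hN3
  have hN10 : 0 < N1 := by positivity
  have hN20 : 0 < N2 := by positivity
  have hN30 : 0 < N3 := by positivity
  have hM : 0 < M := by linarith
  have hδ0 : 0 < δ ^ 2 := by positivity
  obtain ⟨x, y, z, hxyz⟩ : ∃ x y z : ℤ, x * N1 + y * N2 + z * N3 = 1 := by
    apply bezout3
    intro l hl l1 l2 l3
    have hll : Prime (l : ℤ) := Nat.prime_iff_prime_int.1 hl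
    rw [hN1] at l1
    rw [hN3] at l3
    rw [hN2] at l2
    have l1' : (l : ℤ) ∣ q ∨ (l : ℤ) ∣ s := by
      rcases hll.dvd_or_dvd l1 with h | h
      · exact Or.inl (hll.dvd_of_dvd_pow h)
      · exact Or.inr (hll.dvd_of_dvd_pow h)
    have l3' : (l : ℤ) ∣ p ∨ (l : ℤ) ∣ r := by
      rcases hll.dvd_or_dvd l3 with h | h
      · exact Or.inl (hll.dvd_of_dvd_pow h)
      · exact Or.inr (hll.dvd_of_dvd_pow h)
    rcases l1' with hlq | hls
    · rcases l3' with hlp | hlr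
      · exact inot_both hpq hl hlp hlq
      · have h3 : (l : ℤ) ∣ p ^ 2 * s ^ 2 :=
          (dvd_add_left ((dvd_pow hlq (by norm_num)).mul_left _)).1 l2
        rcases hll.dvd_or_dvd h3 with h | h
        · exact inot_both hpq hl (hll.dvd_of_dvd_pow h) hlq
        · exact inot_both hrs hl hlr (hll.dvd_of_dvd_pow h)
    · rcases l3' with hlp | hlr
      · have h3 : (l : ℤ) ∣ r ^ 2 * q ^ 2 :=
          (dvd_add_right ((dvd_pow hls (by norm_num)).mul_left _)).1 l2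
        rcases hll.dvd_or_dvd h3 with h | h
        · exact inot_both hrs hl (hll.dvd_of_dvd_pow h) hls
        · exact inot_both hpq hl hlp (hll.dvd_of_dvd_pow h)
      · exact inot_both hrs hl hlr hls
  set k := x * δ ^ 2 + y * f + z * N ^ 2 with hk
  have k1 : δ ^ 2 = k * N1 := by
    calc δ ^ 2 = δ ^ 2 * (x * N1 + y * N2 + z * N3) := by rw [hxyz, mul_one]
      _ = x * δ ^ 2 * N1 + y * (N2 * δ ^ 2) + z * (N3 * δ ^ 2) := by ring
      _ = k * N1 := by rw [h2, h1, hk]; ring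
  have hkpos : 0 < k := by
    by_contra hcon
    push Not at hcon
    have := mul_nonpos_of_nonpos_of_nonneg hcon hN10.le
    linarith
  have k2 : f = k * N2 := by
    have : N1 * f = N1 * (k * N2) := by rw [← h2, k1]; ring
    exact mul_left_cancel₀ hN10.ne' this
  have k3 : N ^ 2 = k * N3 := by
    have : N1 * N ^ 2 = N1 * (k * N3) := by rw [← h1, k1]; ring
    exact mul_left_cancel₀ hN10.ne' this
  have hle : ∀ A : ℤ, 0 < A → A ≤ k * A := fun A hA => by nlinarith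
  have b1 : N1 ≤ δ ^ 2 := by rw [k1]; exact hle _ hN10
  have b2 : N2 ≤ f := by rw [k2]; exact hle _ hN20
  have b3 : N3 ≤ N ^ 2 := by rw [k3]; exact hle _ hN30
  have u2 : u ^ 2 ≤ M ^ 2 := pow_le_pow_left₀ hu.le huM 2
  have D2 : D ^ 2 ≤ M ^ 2 := pow_le_pow_left₀ hD.le hDM 2
  have u0 : 0 < u ^ 2 := by positivity
  have D0 : 0 < D ^ 2 := by positivity
  have M0 : 0 < M ^ 2 := by positivity
  constructor
  · -- parities
    obtain ⟨u', hu'⟩ := hue
    have hu'' : u = 2 * u' := by omega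
    have hNo : Odd N := by
      rw [hN]
      have h3 : Even (324 * u ^ 2) := by rw [hu'']; exact ⟨648 * u' ^ 2, by ring⟩
      have h4 : Odd (575 * D ^ 2) := by
        apply Odd.mul (by decide) hDo.pow
      exact h3.add_odd h4
    have hkN3 : Odd (k * N3) := by rw [← k3]; exact hNo.pow
    obtain ⟨hko, hN3o⟩ := Int.odd_mul.1 hkN3
    obtain ⟨hpo, hro⟩ := Int.odd_mul.1 hN3o
    have hN1e : Even N1 := by
      have h3 : Even (k * N1) := by
        rw [← k1]
        have : Even δ := by rw [hδ, hu'']; exact ⟨50 * u' ^ 2 - 162 * D ^ 2, by ring⟩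
        exact this.pow_of_ne_zero (by norm_num)
      rcases Int.even_mul.1 h3 with h4 | h4
      · exact absurd h4 (Int.not_even_iff_odd.2 hko)
      · exact h4
    have hN2e : Even N2 := by
      have h3 : Even (k * N2) := by
        rw [← k2, hf]
        exact ⟨(25 * u ^ 2 + 324 * D ^ 2) * (324 * u ^ 2 - 575 * D ^ 2), by ring⟩
      rcases Int.even_mul.1 h3 with h4 | h4
      · exact absurd h4 (Int.not_even_iff_odd.2 hko)
      · exact h4
    have h5 : Even q ∨ Even s := by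
      rcases Int.even_mul.1 hN1e with h4 | h4
      · exact Or.inl ((Int.even_pow' (by norm_num)).1 h4)
      · exact Or.inr ((Int.even_pow' (by norm_num)).1 h4)
    rcases h5 with h5 | h5
    · refine ⟨h5, ?_⟩
      have h6 : Even (p ^ 2 * s ^ 2) := by
        have h7 : Even (r ^ 2 * q ^ 2) := (h5.pow_of_ne_zero (by norm_num)).mul_left _
        exact (Int.even_add.1 hN2e).2 h7
      rcases Int.even_mul.1 h6 with h7 | h7
      · exact absurd h7 (Int.not_even_iff_odd.2 hpo)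
      · exact (Int.even_pow' (by norm_num)).1 h7
    · refine ⟨?_, h5⟩
      have h6 : Even (r ^ 2 * q ^ 2) := by
        have h7 : Even (p ^ 2 * s ^ 2) := (h5.pow_of_ne_zero (by norm_num)).mul_left _
        exact (Int.even_add.1 hN2e).1 h7
      rcases Int.even_mul.1 h6 with h7 | h7
      · exact absurd h7 (Int.not_even_iff_odd.2 hro)
      · exact (Int.even_pow' (by norm_num)).1 h7
  · -- sizes
    have c1 : δ ^ 2 ≤ (324 * M ^ 2) ^ 2 := by
      apply sq_le_sq'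
      · rw [hδ]; nlinarith
      · rw [hδ]; nlinarith
    have c3 : N ^ 2 ≤ (899 * M ^ 2) ^ 2 := by
      apply sq_le_sq'
      · rw [hN]; nlinarith
      · rw [hN]; nlinarith
    have c2 : f ≤ (900 * M ^ 2) ^ 2 := by
      have e1 : 0 < 25 * u ^ 2 + 324 * D ^ 2 := by positivity
      have e2 : 25 * u ^ 2 + 324 * D ^ 2 ≤ 349 * M ^ 2 := by linarith
      have e3 : 324 * u ^ 2 - 575 * D ^ 2 ≤ 324 * M ^ 2 := by linarith
      have e4 : (25 * u ^ 2 + 324 * D ^ 2) * (324 * u ^ 2 - 575 * D ^ 2) ≤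
          (349 * M ^ 2) * (324 * M ^ 2) := by
        calc (25 * u ^ 2 + 324 * D ^ 2) * (324 * u ^ 2 - 575 * D ^ 2)
            ≤ (25 * u ^ 2 + 324 * D ^ 2) * (324 * M ^ 2) := by
              apply mul_le_mul_of_nonneg_left e3 e1.le
          _ ≤ (349 * M ^ 2) * (324 * M ^ 2) := by
              apply mul_le_mul_of_nonneg_right e2 (by positivity)
      have e5 : (0 : ℤ) < M ^ 4 := by positivity
      rw [hf]
      nlinarith
    have d1 : (324 * M ^ 2) ^ 2 < (900 * M ^ 2) ^ 2 := by nlinarith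
    have d3 : (899 * M ^ 2) ^ 2 < (900 * M ^ 2) ^ 2 := by nlinarith
    by_contra hcon
    push Not at hcon
    obtain ⟨g1, g2⟩ := hcon
    have i1 : 30 * M < p ∨ 30 * M < q := by
      by_cases h : p ≤ 30 * M
      · exact Or.inr (g1 h)
      · exact Or.inl (not_le.1 h)
    have i2 : 30 * M < r ∨ 30 * M < s := by
      by_cases h : r ≤ 30 * M
      · exact Or.inr (g2 h)
      · exact Or.inl (not_le.1 h)
    have j1 : 0 < p ^ 2 * s ^ 2 := by positivity
    have j2 : 0 < r ^ 2 * q ^ 2 := by positivity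
    rcases i1 with i1 | i1 <;> rcases i2 with i2 | i2
    · have := mul_gt hM i1 i2; linarith
    · have := mul_gt hM i1 i2; linarith
    · have := mul_gt hM i2 i1; linarith
    · have := mul_gt hM i1 i2; linarith

end Pool.Agent.H964R2.Lang
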