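import Pool.Agent.H964R2.Lang.Curve
import Pool.Agent.H964R2.Lang.Halve
import Pool.Agent.H964R2.Lang.Trans

/-!
# Every rational point with `x ≠ 0` is, up to translation by `T`, of the form `x = u²/D²`
-/

namespace Pool.Agent.H964R2.Lang

theorem prime23i : Prime (23 : ℤ) := Int.prime_iff_natAbs_prime.2 (by norm_num)

theorem isq_add_sq_23 {x y : ℤ} (h : (23 : ℤ) ∣ x ^ 2 + y ^ 2) : (23 : ℤ) ∣ x ∧ (23 : ℤ) ∣ y := by
  have h1 : (23 : ℕ) ∣ x.natAbs ^ 2 + y.natAbs ^ 2 := by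
    have : ((23 : ℕ) : ℤ) ∣ ((x.natAbs ^ 2 + y.natAbs ^ 2 : ℕ) : ℤ) := by
      push_cast
      rw [sq_abs, sq_abs]; exact h
    exact_mod_cast this
  obtain ⟨h2, h3⟩ := sq_add_sq_23 h1
  exact ⟨Int.ofNat_dvd_left.2 h2, Int.ofNat_dvd_left.2 h3⟩

/-- a nonnegative integer which is `±` a square is a square -/
theorem nonneg_sq {a b : ℤ} (ha : 0 ≤ a) (h : a = b ^ 2 ∨ a = -b ^ 2) : a = b ^ 2 := by
  rcases h with h | h
  · exact h
  · have : 0 ≤ b ^ 2 := sq_nonneg b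
    have : b ^ 2 = 0 := by linarith
    rw [h, this]; norm_num

theorem class_int {N M : ℤ} (hM : 0 < M) (hN : N ≠ 0) (hc : IsCoprime N M)
    (h : IsSquare (N * M * (N ^ 2 - 23 * M ^ 2))) :
    ∃ u D w : ℤ, 0 < u ∧ 0 < D ∧ IsCoprime u D ∧ u ^ 4 = w ^ 2 + 23 * D ^ 4 ∧
      ((N = u ^ 2 ∧ M = D ^ 2) ∨ (N = -23 * D ^ 2 ∧ M = u ^ 2)) := by
  obtain ⟨t, ht⟩ := h
  have hcM : IsCoprime M (N * (N ^ 2 - 23 * M ^ 2)) := by
    apply IsCoprime.mul_right hc.symm
    have : N ^ 2 - 23 * M ^ 2 = N ^ 2 + M * (-(23 * M)) := by ring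
    rw [this]
    exact (IsCoprime.pow_right (n := 2) hc.symm).add_mul_left_right _
  have e1 : M * (N * (N ^ 2 - 23 * M ^ 2)) = t ^ 2 := by rw [sq t, ← ht]; ring
  obtain ⟨Z, hZ⟩ := Int.sq_of_isCoprime hcM e1
  have hMZ : M = Z ^ 2 := nonneg_sq hM.le hZ
  have hK0 : 0 ≤ N * (N ^ 2 - 23 * M ^ 2) := by
    have : 0 ≤ M * (N * (N ^ 2 - 23 * M ^ 2)) := by rw [e1]; positivity
    exact nonneg_of_mul_nonneg_right this hM
  obtain ⟨t', ht'⟩ := Int.sq_of_isCoprime hcM.symm (by rw [mul_comm]; exact e1)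
  have hK : N * (N ^ 2 - 23 * M ^ 2) = t' ^ 2 := nonneg_sq hK0 ht'
  have hZ0 : Z ≠ 0 := by rintro rfl; rw [hMZ] at hM; norm_num at hM
  have hne : N ^ 2 - 23 * M ^ 2 ≠ 0 := by
    intro h0
    have hM' : (M : ℚ) ≠ 0 := by exact_mod_cast hM.ne'
    apply sq_ne_23 ((N : ℚ) / M)
    have : (N : ℚ) ^ 2 - 23 * M ^ 2 = 0 := by exact_mod_cast h0
    field_simp
    linarith
  by_cases h23 : (23 : ℤ) ∣ N
  · obtain ⟨N', rfl⟩ := h23
    have hN' : N' ≠ 0 := by rintro rfl; exact hN (by ring)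
    have h1 : t' ^ 2 = 23 ^ 2 * (N' * (23 * N' ^ 2 - M ^ 2)) := by rw [← hK]; ring
    have h2 : (23 : ℤ) ∣ t' := prime23i.dvd_of_dvd_pow (n := 2) ⟨23 * (N' * (23 * N' ^ 2 - M ^ 2)), by rw [h1]; ring⟩
    obtain ⟨t'', rfl⟩ := h2
    have h3 : N' * (23 * N' ^ 2 - M ^ 2) = t'' ^ 2 := by
      have : (23 : ℤ) ^ 2 * (N' * (23 * N' ^ 2 - M ^ 2)) = 23 ^ 2 * t'' ^ 2 := by rw [← h1]; ring
      exact mul_left_cancel₀ (by norm_num) this
    have hc' : IsCoprime N' M := IsCoprime.of_mul_left_right hc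
    have hc2 : IsCoprime N' (23 * N' ^ 2 - M ^ 2) := by
      have : 23 * N' ^ 2 - M ^ 2 = - M ^ 2 + N' * (23 * N') := by ring
      rw [this]
      exact ((IsCoprime.pow_right (n := 2) hc').neg_right).add_mul_left_right _
    have h23M : ¬ (23 : ℤ) ∣ M := by
      intro h4
      exact inot_both hc (p := 23) (by norm_num) (Dvd.intro _ rfl) h4
    obtain ⟨u, hu⟩ := Int.sq_of_isCoprime hc2 h3
    obtain ⟨w, hw⟩ := Int.sq_of_isCoprime hc2.symm (by rw [mul_comm]; exact h3)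
    have hu0 : u ≠ 0 := by
      rintro rfl; apply hN'; rcases hu with h | h <;> simpa using h
    have hupos : 0 < u ^ 2 := by positivity
    rcases hu with hu | hu
    · exfalso
      have h4 : 0 ≤ 23 * N' ^ 2 - M ^ 2 := by
        have : 0 ≤ N' * (23 * N' ^ 2 - M ^ 2) := by rw [h3]; positivity
        exact nonneg_of_mul_nonneg_right this (by rw [hu]; exact hupos)
      have h5 := nonneg_sq h4 hw
      have h6 : (23 : ℤ) ∣ M ^ 2 + w ^ 2 := ⟨N' ^ 2, by rw [← h5]; ring⟩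
      exact h23M (isq_add_sq_23 h6).1
    · have h4 : 0 ≤ M ^ 2 - 23 * N' ^ 2 := by
        have h5 : 0 ≤ N' * (23 * N' ^ 2 - M ^ 2) := by rw [h3]; positivity
        have h6 : 0 ≤ u ^ 2 * (M ^ 2 - 23 * N' ^ 2) := by
          have : u ^ 2 * (M ^ 2 - 23 * N' ^ 2) = N' * (23 * N' ^ 2 - M ^ 2) := by rw [hu]; ring
          rw [this]; exact h5
        exact nonneg_of_mul_nonneg_right h6 hupos
      have h5 : M ^ 2 - 23 * N' ^ 2 = w ^ 2 := by
        apply nonneg_sq h4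
        rcases hw with h | h
        · right; linarith
        · left; linarith
      refine ⟨|Z|, |u|, w, abs_pos.2 hZ0, abs_pos.2 hu0, ?_, ?_, Or.inr ⟨?_, ?_⟩⟩
      · have h6 : IsCoprime (Z ^ 2) (u ^ 2) := by
          rw [← hMZ]
          have : u ^ 2 = - N' := by rw [hu]; ring
          rw [this]
          exact hc'.symm.neg_right
        have h7 : IsCoprime Z u := by
          have := IsCoprime.of_isCoprime_of_dvd_left h6 (dvd_pow_self Z (by norm_num))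
          exact IsCoprime.of_isCoprime_of_dvd_right this (dvd_pow_self u (by norm_num))
        exact (Int.isCoprime_iff_gcd_eq_one.2 (by
          rw [Int.gcd_eq_natAbs, Int.natAbs_abs, Int.natAbs_abs, ← Int.gcd_eq_natAbs]
          exact Int.isCoprime_iff_gcd_eq_one.1 h7))
      · have e3 : |Z| ^ 4 = M ^ 2 := by
          have : |Z| ^ 4 = (|Z| ^ 2) ^ 2 := by ring
          rw [this, sq_abs, ← hMZ]
        have e4 : |u| ^ 4 = N' ^ 2 := by
          have : |u| ^ 4 = (|u| ^ 2) ^ 2 := by ring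
          rw [this, sq_abs, hu]; ring
        rw [e3, e4]; linarith
      · rw [sq_abs, hu]; ring
      · rw [sq_abs]; exact hMZ
  · have hc2 : IsCoprime N (N ^ 2 - 23 * M ^ 2) := by
      apply icoprime_of_prime
      intro p hp h1 h2
      have hpp : Prime (p : ℤ) := Nat.prime_iff_prime_int.1 hp
      have h3 : (p : ℤ) ∣ 23 * M ^ 2 := by
        have : 23 * M ^ 2 = N ^ 2 - (N ^ 2 - 23 * M ^ 2) := by ring
        rw [this]; exact dvd_sub (dvd_pow h1 (by norm_num)) h2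
      rcases hpp.dvd_or_dvd h3 with h4 | h4
      · have h5 : p ∣ 23 := by exact_mod_cast h4
        rcases (Nat.dvd_prime prime23).1 h5 with h6 | h6
        · exact hp.one_lt.ne' h6
        · apply h23; rw [h6] at h1; exact_mod_cast h1
      · exact inot_both hc hp h1 (hpp.dvd_of_dvd_pow h4)
    obtain ⟨u, hu⟩ := Int.sq_of_isCoprime hc2 hK
    obtain ⟨w, hw⟩ := Int.sq_of_isCoprime hc2.symm (by rw [mul_comm]; exact hK)
    have hu0 : u ≠ 0 := by
      rintro rfl; apply hN; rcases hu with h | h <;> simpa using h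
    have hupos : 0 < u ^ 2 := by positivity
    rcases hu with hu | hu
    · have h4 : 0 ≤ N ^ 2 - 23 * M ^ 2 := by
        have : 0 ≤ N * (N ^ 2 - 23 * M ^ 2) := by rw [hK]; positivity
        exact nonneg_of_mul_nonneg_right this (by rw [hu]; exact hupos)
      have h5 := nonneg_sq h4 hw
      refine ⟨|u|, |Z|, w, abs_pos.2 hu0, abs_pos.2 hZ0, ?_, ?_, Or.inl ⟨?_, ?_⟩⟩
      · have h6 : IsCoprime (u ^ 2) (Z ^ 2) := by rw [← hMZ, ← hu]; exact hc
        have h7 : IsCoprime u Z := by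
          have := IsCoprime.of_isCoprime_of_dvd_left h6 (dvd_pow_self u (by norm_num))
          exact IsCoprime.of_isCoprime_of_dvd_right this (dvd_pow_self Z (by norm_num))
        exact (Int.isCoprime_iff_gcd_eq_one.2 (by
          rw [Int.gcd_eq_natAbs, Int.natAbs_abs, Int.natAbs_abs, ← Int.gcd_eq_natAbs]
          exact Int.isCoprime_iff_gcd_eq_one.1 h7))
      · have e3 : |Z| ^ 4 = M ^ 2 := by
          have : |Z| ^ 4 = (|Z| ^ 2) ^ 2 := by ring
          rw [this, sq_abs, ← hMZ]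
        have e4 : |u| ^ 4 = N ^ 2 := by
          have : |u| ^ 4 = (|u| ^ 2) ^ 2 := by ring
          rw [this, sq_abs, hu]
        rw [e3, e4]; linarith
      · rw [sq_abs]; exact hu
      · rw [sq_abs]; exact hMZ
    · exfalso
      have h4 : 0 ≤ 23 * M ^ 2 - N ^ 2 := by
        have h5 : 0 ≤ N * (N ^ 2 - 23 * M ^ 2) := by rw [hK]; positivity
        have h6 : 0 ≤ u ^ 2 * (23 * M ^ 2 - N ^ 2) := by
          have : u ^ 2 * (23 * M ^ 2 - N ^ 2) = N * (N ^ 2 - 23 * M ^ 2) := by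
            have : u ^ 2 = - N := by rw [hu]; ring
            rw [this]; ring
          rw [this]; exact h5
        exact nonneg_of_mul_nonneg_right h6 hupos
      have h5 : 23 * M ^ 2 - N ^ 2 = w ^ 2 := by
        apply nonneg_sq h4
        rcases hw with h | h
        · right; linarith
        · left; linarith
      have h6 : (23 : ℤ) ∣ N ^ 2 + w ^ 2 := ⟨M ^ 2, by rw [← h5]; ring⟩
      exact h23 (isq_add_sq_23 h6).1

/-- the class of a point -/
theorem class_pt {P : Pt} (hP : P ≠ 0) (hX : ptX P ≠ 0) :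
    ∃ u D w : ℕ, 0 < u ∧ 0 < D ∧ Nat.Coprime u D ∧ u ^ 4 = w ^ 2 + 23 * D ^ 4 ∧
      (ptX P = (u : ℚ) ^ 2 / (D : ℚ) ^ 2 ∨ ptX (P + T) = (u : ℚ) ^ 2 / (D : ℚ) ^ 2) := by
  have e := pt_eq hP
  set X := ptX P with hXdef
  set N := X.num with hN
  set M : ℤ := (X.den : ℤ) with hM
  have hM0 : 0 < M := by rw [hM]; exact_mod_cast X.den_pos
  have hN0 : N ≠ 0 := Rat.num_ne_zero.2 hX
  have hXNM : X = (N : ℚ) / M := by
    rw [hN, hM]; push_cast; exact (Rat.num_div_den X).symm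
  have hcop : IsCoprime N M := by
    rw [Int.isCoprime_iff_gcd_eq_one, hM, Int.gcd_eq_natAbs, Int.natAbs_natCast]
    exact X.reduced
  have hM' : (M : ℚ) ≠ 0 := by exact_mod_cast hM0.ne'
  have hN' : (N : ℚ) ≠ 0 := by exact_mod_cast hN0
  have hsq : IsSquare (N * M * (N ^ 2 - 23 * M ^ 2)) := by
    rw [← Rat.isSquare_intCast_iff]
    refine ⟨ptY P * M ^ 2, ?_⟩
    have : ptY P * (M : ℚ) ^ 2 * (ptY P * M ^ 2) = ptY P ^ 2 * M ^ 4 := by ring
    rw [this, e, hXNM]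
    push_cast
    field_simp
  obtain ⟨u, D, w, hu, hD, huD, h4, hcase⟩ := class_int hM0 hN0 hcop hsq
  refine ⟨u.natAbs, D.natAbs, w.natAbs, Int.natAbs_pos.2 hu.ne', Int.natAbs_pos.2 hD.ne', ?_, ?_, ?_⟩
  · exact Int.isCoprime_iff_gcd_eq_one.1 huD
  · have h5 : ((u.natAbs : ℤ)) ^ 4 = (w.natAbs : ℤ) ^ 2 + 23 * (D.natAbs : ℤ) ^ 4 := by
      rw [Int.natAbs_of_nonneg hu.le, Int.natAbs_of_nonneg hD.le, Int.natCast_natAbs, sq_abs]
      exact h4
    exact_mod_cast h5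
  · have c1 : ((u.natAbs : ℕ) : ℚ) = (u : ℚ) := by
      rw [← Int.cast_natCast, Int.natAbs_of_nonneg hu.le]
    have c2 : ((D.natAbs : ℕ) : ℚ) = (D : ℚ) := by
      rw [← Int.cast_natCast, Int.natAbs_of_nonneg hD.le]
    rw [c1, c2]
    rcases hcase with ⟨h5, h6⟩ | ⟨h5, h6⟩
    · left
      rw [hXNM, h5, h6]; push_cast; rfl
    · right
      have hu' : (u : ℚ) ≠ 0 := by exact_mod_cast hu.ne'
      have hD' : (D : ℚ) ≠ 0 := by exact_mod_cast hD.ne'
      rw [(add_T hP hX).2, ← hXdef, hXNM, h5, h6]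
      push_cast
      field_simp

end Pool.Agent.H964R2.Lang
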