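import Pool.Agent.H964R2.Lang.Key

/-!
# Integral coordinates `(A/Z², B/Z³)` of rational points and their reductions
-/

namespace Pool.Agent.H964R2.Lang

theorem coords {P : Pt} (hP : P ≠ 0) : ∃ A B Z : ℤ, Z ≠ 0 ∧ ptX P = A / Z ^ 2 ∧
    ptY P = B / Z ^ 3 ∧ B ^ 2 = A ^ 3 - 23 * A * Z ^ 4 ∧ IsCoprime A Z := by
  by_cases hX : ptX P = 0
  · refine ⟨0, 0, 1, one_ne_zero, by rw [hX]; norm_num, ?_, by norm_num, isCoprime_zero_left.2 isUnit_one⟩
    rw [(ptY_zero_iff hP).2 hX]; norm_num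
  have e := pt_eq hP
  set X := ptX P with hXdef
  set N := X.num with hN
  set M : ℤ := (X.den : ℤ) with hM
  have hM0 : 0 < M := by rw [hM]; exact_mod_cast X.den_pos
  have hN0 : N ≠ 0 := Rat.num_ne_zero.2 hX
  have hXNM : X = (N : ℚ) / M := by
    rw [hN, hM]; push_cast; exact (Rat.num_div_den X).symm
  have hcop : IsCoprime N M := by
    rw [Int.isCoprime_iff_gcd_eq_one, hM, Int.gcd_eq_natAbs, Int.natAbs_natCast]
    exact X.reduced
  have hM' : (M : ℚ) ≠ 0 := by exact_mod_cast hM0.ne'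
  have hsq : IsSquare (N * M * (N ^ 2 - 23 * M ^ 2)) := by
    rw [← Rat.isSquare_intCast_iff]
    refine ⟨ptY P * M ^ 2, ?_⟩
    have : ptY P * (M : ℚ) ^ 2 * (ptY P * M ^ 2) = ptY P ^ 2 * M ^ 4 := by ring
    rw [this, e, hXNM]
    push_cast
    field_simp
  obtain ⟨u, D, w, hu, hD, huD, h4, hcase⟩ := class_int hM0 hN0 hcop hsq
  obtain ⟨Z, hZ0, hMZ⟩ : ∃ Z : ℤ, Z ≠ 0 ∧ M = Z ^ 2 := by
    rcases hcase with ⟨-, h⟩ | ⟨-, h⟩
    · exact ⟨D, hD.ne', h⟩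
    · exact ⟨u, hu.ne', h⟩
  have hZ' : (Z : ℚ) ≠ 0 := by exact_mod_cast hZ0
  have hXZ : X = (N : ℚ) / Z ^ 2 := by rw [hXNM, hMZ]; push_cast; rfl
  have hY2 : (ptY P * Z ^ 3) ^ 2 = ((N ^ 3 - 23 * N * Z ^ 4 : ℤ) : ℚ) := by
    rw [mul_pow, e, hXZ]
    push_cast
    field_simp
  have hsq2 : IsSquare (N ^ 3 - 23 * N * Z ^ 4) := by
    rw [← Rat.isSquare_intCast_iff]
    exact ⟨ptY P * Z ^ 3, by rw [← hY2]; ring⟩
  obtain ⟨t, ht⟩ := hsq2
  have hcopZ : IsCoprime N Z := by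
    rw [hMZ] at hcop
    exact IsCoprime.of_isCoprime_of_dvd_right hcop (dvd_pow_self Z (by norm_num))
  have h5 : (ptY P * Z ^ 3) ^ 2 = (t : ℚ) ^ 2 := by
    rw [hY2, ht]; push_cast; ring
  rcases sq_eq_sq_iff_eq_or_eq_neg.1 h5 with h6 | h6
  · refine ⟨N, t, Z, hZ0, hXZ, ?_, by rw [sq, ← ht], hcopZ⟩
    field_simp
    exact h6
  · refine ⟨N, -t, Z, hZ0, hXZ, ?_, by rw [neg_sq, sq, ← ht], hcopZ⟩
    push_cast
    field_simp
    exact h6

theorem red_O {p : ℕ} [hp : Fact p.Prime] {P : Pt} (hP : P ≠ 0) (hK : P ∈ Ker p) {A Z : ℤ}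
    (hZ : Z ≠ 0) (hX : ptX P = A / Z ^ 2) : (p : ℤ) ∣ Z := by
  by_contra hcon
  rcases hK with h | h
  · exact hP h
  · have hA : A ≠ 0 := by
      rintro rfl
      rw [hX] at h
      simp at h
    have hA' : (A : ℚ) ≠ 0 := by exact_mod_cast hA
    have hZ' : (Z : ℚ) ≠ 0 := by exact_mod_cast hZ
    rw [hX, padicValRat.div hA' (pow_ne_zero 2 hZ'), padicValRat.pow, padicValRat.of_int,
      padicValRat.of_int, padicValInt.eq_zero_of_not_dvd hcon] at h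
    have : (0 : ℤ) ≤ (padicValInt p A : ℤ) := by positivity
    push_cast at h
    omega

theorem red_T {p : ℕ} [hp : Fact p.Prime] (h23 : p ≠ 23) {P : Pt} (hP : P ≠ 0)
    (hK : P + T ∈ Ker p) {A B Z : ℤ} (hZ : Z ≠ 0) (hX : ptX P = A / Z ^ 2)
    (hE : B ^ 2 = A ^ 3 - 23 * A * Z ^ 4) : (p : ℤ) ∣ A ∧ (p : ℤ) ∣ B := by
  have hZ' : (Z : ℚ) ≠ 0 := by exact_mod_cast hZ
  have hpp : Prime (p : ℤ) := Nat.prime_iff_prime_int.1 hp.out
  have hA : (p : ℤ) ∣ A := by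
    by_contra hcon
    rcases (add_T_mem_Ker h23 hP).1 hK with h | h
    · apply hcon
      rw [h, T_X] at hX
      have : (A : ℚ) = 0 := by
        field_simp at hX
        linarith
      have : A = 0 := by exact_mod_cast this
      rw [this]; exact dvd_zero _
    · have hA : A ≠ 0 := by
        rintro rfl; exact hcon (dvd_zero _)
      have hA' : (A : ℚ) ≠ 0 := by exact_mod_cast hA
      rw [hX, padicValRat.div hA' (pow_ne_zero 2 hZ'), padicValRat.pow, padicValRat.of_int,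
        padicValRat.of_int, padicValInt.eq_zero_of_not_dvd hcon] at h
      have : (0 : ℤ) ≤ (padicValInt p Z : ℤ) := by positivity
      push_cast at h
      omega
  refine ⟨hA, hpp.dvd_of_dvd_pow (n := 2) ?_⟩
  rw [hE]
  exact dvd_sub (dvd_pow hA (by norm_num)) ((hA.mul_left 23).mul_right _)

/-- **Key lemma in coordinates** -/
theorem key_coords {r : ℕ} (x y : Fin r → ℚ) (hE : ∀ i, y i ^ 2 = x i ^ 3 - 23 * x i)
    (hne : ∃ i, x i ≠ 0) :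
    ∃ (p : ℕ), Inert p ∧ ∃ (A B Z : Fin r → ℤ) (e : Fin r → Bool), (∃ i, e i = false) ∧
      ∀ i, Z i ≠ 0 ∧ x i = A i / Z i ^ 2 ∧ y i = B i / Z i ^ 3 ∧
        (e i = false → (p : ℤ) ∣ Z i ∧ ¬ (p : ℤ) ∣ A i ∧ (p : ℤ) ∣ B i ^ 2 - A i ^ 3) ∧
        (e i = true → (p : ℤ) ∣ A i ∧ (p : ℤ) ∣ B i ∧ ¬ (p : ℤ) ∣ Z i) := by
  classical
  have h1 : ∀ i, ∃ P : Pt, P ≠ 0 ∧ ptX P = x i ∧ ptY P = y i := fun i => exists_pt (hE i)
  choose P hP0 hPX hPY using h1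
  obtain ⟨p, hp, hall, i0, hi0⟩ := key P (by
    obtain ⟨i, hi⟩ := hne
    refine ⟨i, fun h => hi ?_⟩
    rw [← hPX i, h, T_X])
  have hpF : Fact p.Prime := ⟨hp.1⟩
  have h2 := fun i => coords (hP0 i)
  choose A B Z hZ hX hY hEq hco using h2
  refine ⟨p, hp, A, B, Z, fun i => if P i ∈ Ker p then false else true, ⟨i0, if_pos hi0⟩, ?_⟩
  intro i
  refine ⟨hZ i, by rw [← hPX i]; exact hX i, by rw [← hPY i]; exact hY i, ?_, ?_⟩
  · intro h3
    have h4 : P i ∈ Ker p := by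
      by_contra hcon
      simp [hcon] at h3
    have h5 := red_O (hP0 i) h4 (hZ i) (hX i)
    refine ⟨h5, fun h6 => inot_both (hco i) hp.1 h6 h5, ?_⟩
    rw [hEq i]
    have : A i ^ 3 - 23 * A i * Z i ^ 4 - A i ^ 3 = Z i * (-(23 * A i * Z i ^ 3)) := by ring
    rw [this]
    exact h5.mul_right _
  · intro h3
    have h4 : P i ∉ Ker p := by
      intro hcon
      simp [hcon] at h3
    have h5 : P i + T ∈ Ker p := (hall i).resolve_left h4
    obtain ⟨h6, h7⟩ := red_T hp.2.1 (hP0 i) h5 (hZ i) (hX i) (hEq i)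
    exact ⟨h6, h7, fun h8 => inot_both (hco i) hp.1 h6 h8⟩

end Pool.Agent.H964R2.Lang
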