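import Mathlib

/-!
# The elliptic curve `E : y² = x³ - 23 x` over `ℚ`; group law in coordinates
-/

namespace Pool.Agent.H964R2.Lang

open WeierstrassCurve

/-- `y² = x³ - 23 x` -/
def W : WeierstrassCurve ℚ := ⟨0, 0, 0, -23, 0⟩

abbrev Pt : Type := W.toAffine.Point

lemma W_equation_iff {x y : ℚ} :
    W.toAffine.Equation x y ↔ y ^ 2 = x ^ 3 - 23 * x := by
  rw [WeierstrassCurve.Affine.equation_iff]
  simp only [W]
  constructor <;> intro h <;> linarith

/-- `23` is not a rational square -/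
lemma sq_ne_23 (x : ℚ) : x ^ 2 ≠ 23 := by
  intro h
  have h1 : IsSquare (23 : ℚ) := ⟨x, by rw [← h]; ring⟩
  have h2 : IsSquare ((23 : ℕ) : ℚ) := by exact_mod_cast h1
  rw [Rat.isSquare_natCast_iff] at h2
  obtain ⟨k, hk⟩ := h2
  have h3 : k ≤ 4 := by nlinarith
  interval_cases k <;> omega

lemma W_nonsingular_iff {x y : ℚ} :
    W.toAffine.Nonsingular x y ↔ y ^ 2 = x ^ 3 - 23 * x := by
  rw [WeierstrassCurve.Affine.nonsingular_iff, W_equation_iff]
  constructor
  · exact fun h => h.1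
  · intro h
    refine ⟨h, ?_⟩
    simp only [W]
    by_cases hy : y = 0
    · left
      subst hy
      have h0 : x * (x ^ 2 - 23) = 0 := by linarith
      rcases mul_eq_zero.mp h0 with hx | hx
      · subst hx; norm_num
      · exact absurd (by linarith) (sq_ne_23 x)
    · right
      intro h1
      exact hy (by linarith)

/-- first coordinate (`0` for the point at infinity) -/
def ptX : Pt → ℚ
  | .zero => 0
  | .some x _ _ => x

/-- second coordinate (`0` for the point at infinity) -/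
def ptY : Pt → ℚ
  | .zero => 0
  | .some _ y _ => y

@[simp] lemma ptX_some {x y : ℚ} (h : W.toAffine.Nonsingular x y) :
    ptX (Affine.Point.some x y h) = x := rfl
@[simp] lemma ptY_some {x y : ℚ} (h : W.toAffine.Nonsingular x y) :
    ptY (Affine.Point.some x y h) = y := rfl
@[simp] lemma ptX_zero : ptX 0 = 0 := rfl
@[simp] lemma ptY_zero : ptY 0 = 0 := rfl

lemma W_negY (x y : ℚ) : W.toAffine.negY x y = -y := by
  simp [Affine.negY, W]

lemma W_addX (x₁ x₂ l : ℚ) : W.toAffine.addX x₁ x₂ l = l ^ 2 - x₁ - x₂ := by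
  simp [Affine.addX, W]

lemma W_addY (x₁ x₂ y₁ l : ℚ) :
    W.toAffine.addY x₁ x₂ y₁ l = -(l * ((l ^ 2 - x₁ - x₂) - x₁) + y₁) := by
  rw [Affine.addY, W_negY, Affine.negAddY, W_addX]

/-- case analysis on nonzero points -/
lemma exists_some {P : Pt} (hP : P ≠ 0) :
    ∃ (x y : ℚ) (h : W.toAffine.Nonsingular x y), P = Affine.Point.some x y h := by
  cases P with
  | zero => exact absurd rfl hP
  | some x y h => exact ⟨x, y, h, rfl⟩

theorem ptX_neg (P : Pt) : ptX (-P) = ptX P := by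
  cases P with
  | zero => rfl
  | some x y h => rw [Affine.Point.neg_some]; rfl

theorem ptY_neg (P : Pt) : ptY (-P) = - ptY P := by
  cases P with
  | zero => change (0 : ℚ) = - 0; simp
  | some x y h => rw [Affine.Point.neg_some, ptY_some, ptY_some, W_negY]

theorem pt_eq {P : Pt} (h : P ≠ 0) : ptY P ^ 2 = ptX P ^ 3 - 23 * ptX P := by
  obtain ⟨x, y, hxy, rfl⟩ := exists_some h
  exact W_nonsingular_iff.mp hxy

theorem pt_ext {P Q : Pt} (hP : P ≠ 0) (hQ : Q ≠ 0) (h1 : ptX P = ptX Q) (h2 : ptY P = ptY Q) :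
    P = Q := by
  obtain ⟨x, y, hxy, rfl⟩ := exists_some hP
  obtain ⟨x', y', hxy', rfl⟩ := exists_some hQ
  simp only [ptX_some, ptY_some] at h1 h2
  subst h1 h2
  rfl

theorem ptX_eq_iff {P Q : Pt} (hP : P ≠ 0) (hQ : Q ≠ 0) : ptX P = ptX Q ↔ P = Q ∨ P = -Q := by
  constructor
  · intro h
    obtain ⟨x, y, hxy, rfl⟩ := exists_some hP
    obtain ⟨x', y', hxy', rfl⟩ := exists_some hQ
    simp only [ptX_some] at h
    subst h
    have h1 := W_nonsingular_iff.mp hxy
    have h2 := W_nonsingular_iff.mp hxy'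
    have h3 : y ^ 2 = y' ^ 2 := by rw [h1, h2]
    rcases sq_eq_sq_iff_eq_or_eq_neg.mp h3 with h4 | h4
    · left; subst h4; rfl
    · right
      rw [Affine.Point.neg_some]
      subst h4
      simp only [W_negY]
  · rintro (h | h)
    · rw [h]
    · rw [h, ptX_neg]

/-- every affine rational solution is a point -/
theorem exists_pt {z y : ℚ} (h : y ^ 2 = z ^ 3 - 23 * z) :
    ∃ P : Pt, P ≠ 0 ∧ ptX P = z ∧ ptY P = y :=
  ⟨Affine.Point.some z y (W_nonsingular_iff.mpr h), Affine.Point.some_ne_zero _, rfl, rfl⟩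

theorem pt_add {P Q : Pt} (hP : P ≠ 0) (hQ : Q ≠ 0) (h : ptX P ≠ ptX Q) :
    let l := (ptY P - ptY Q) / (ptX P - ptX Q)
    P + Q ≠ 0 ∧ ptX (P + Q) = l ^ 2 - ptX P - ptX Q ∧
      ptY (P + Q) = - (l * (ptX (P + Q) - ptX P) + ptY P) := by
  obtain ⟨x, y, hxy, rfl⟩ := exists_some hP
  obtain ⟨x', y', hxy', rfl⟩ := exists_some hQ
  simp only [ptX_some, ptY_some] at h ⊢
  rw [Affine.Point.add_of_X_ne h]
  refine ⟨Affine.Point.some_ne_zero _, ?_, ?_⟩
  · rw [ptX_some, W_addX, Affine.slope_of_X_ne h]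
  · rw [ptX_some, ptY_some, W_addX, W_addY, Affine.slope_of_X_ne h]

theorem pt_dbl {P : Pt} (hP : P ≠ 0) (h : ptY P ≠ 0) :
    P + P ≠ 0 ∧ ptX (P + P) = ((ptX P ^ 2 + 23) / (2 * ptY P)) ^ 2 := by
  obtain ⟨x, y, hxy, rfl⟩ := exists_some hP
  simp only [ptX_some, ptY_some] at h ⊢
  have hy : y ≠ W.toAffine.negY x y := by
    rw [W_negY]
    intro h1
    exact h (by linarith)
  have hsl : W.toAffine.slope x x y y = (3 * x ^ 2 - 23) / (2 * y) := by
    rw [Affine.slope_of_Y_ne rfl hy, W_negY]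
    simp only [W]
    congr 1 <;> ring
  rw [Affine.Point.add_self_of_Y_ne hy]
  have h1 : ptX (Affine.Point.some (W.toAffine.addX x x (W.toAffine.slope x x y y))
      (W.toAffine.addY x x y (W.toAffine.slope x x y y)) (Affine.nonsingular_add hxy hxy
        fun hxy => hy hxy.right)) = ((3 * x ^ 2 - 23) / (2 * y)) ^ 2 - 2 * x := by
    rw [ptX_some, W_addX, hsl]; ring
  refine ⟨Affine.Point.some_ne_zero _, ?_⟩
  rw [h1]
  have h2 := W_nonsingular_iff.mp hxy
  field_simp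
  linear_combination (- 8 * x) * h2

/-- product formula -/
theorem pt_prod {P Q : Pt} (hP : P ≠ 0) (hQ : Q ≠ 0) (h : ptX P ≠ ptX Q) :
    ptX (P + Q) * ptX (P - Q) = ((ptX P * ptX Q + 23) / (ptX P - ptX Q)) ^ 2 := by
  have hQ' : -Q ≠ 0 := neg_ne_zero.mpr hQ
  have h' : ptX P ≠ ptX (-Q) := by rwa [ptX_neg]
  have h1 := (pt_add hP hQ h).2.1
  have h2 := (pt_add hP hQ' h').2.1
  rw [ptX_neg, ptY_neg] at h2
  rw [sub_eq_add_neg, h1, h2]
  have e1 := pt_eq hP
  have e2 := pt_eq hQ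
  generalize ptX P = x at *
  generalize ptX Q = x' at *
  generalize ptY P = y at *
  generalize ptY Q = y' at *
  have hd : x - x' ≠ 0 := sub_ne_zero.mpr h
  field_simp
  linear_combination
    ((y ^ 2 - y' ^ 2 + (x ^ 3 - 23 * x) - (x' ^ 3 - 23 * x'))
      + 2 * (x - x') ^ 2 * (- x - x')) * e1
    + (-(y ^ 2 - y' ^ 2 + (x ^ 3 - 23 * x) - (x' ^ 3 - 23 * x'))
      + 2 * (x - x') ^ 2 * (- x - x')) * e2

/-- sum formula -/
theorem pt_sum {P Q : Pt} (hP : P ≠ 0) (hQ : Q ≠ 0) (h : ptX P ≠ ptX Q) :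
    ptX (P + Q) + ptX (P - Q) =
      2 * ((ptX P + ptX Q) * (ptX P * ptX Q - 23)) / (ptX P - ptX Q) ^ 2 := by
  have hQ' : -Q ≠ 0 := neg_ne_zero.mpr hQ
  have h' : ptX P ≠ ptX (-Q) := by rwa [ptX_neg]
  have h1 := (pt_add hP hQ h).2.1
  have h2 := (pt_add hP hQ' h').2.1
  rw [ptX_neg, ptY_neg] at h2
  rw [sub_eq_add_neg, h1, h2]
  have e1 := pt_eq hP
  have e2 := pt_eq hQ
  generalize ptX P = x at *
  generalize ptX Q = x' at *
  generalize ptY P = y at *
  generalize ptY Q = y' at *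
  have hd : x - x' ≠ 0 := sub_ne_zero.mpr h
  field_simp
  linear_combination 2 * e1 + 2 * e2

/-- the point `T = (0, 0)` of order two -/
def T : Pt := .some 0 0 (W_nonsingular_iff.mpr (by norm_num))

/-- the generator `(324/25, 5418/125)` -/
def P0 : Pt := .some (324 / 25) (5418 / 125) (W_nonsingular_iff.mpr (by norm_num))

theorem T_ne : T ≠ 0 := Affine.Point.some_ne_zero _
theorem P0_ne : P0 ≠ 0 := Affine.Point.some_ne_zero _
theorem T_X : ptX T = 0 := rfl
theorem T_Y : ptY T = 0 := rfl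
theorem P0_X : ptX P0 = 324 / 25 := rfl
theorem P0_Y : ptY P0 = 5418 / 125 := rfl

theorem ptY_zero_iff {P : Pt} (hP : P ≠ 0) : ptY P = 0 ↔ ptX P = 0 := by
  have h := pt_eq hP
  constructor
  · intro h0
    rw [h0] at h
    have h1 : ptX P * (ptX P ^ 2 - 23) = 0 := by linarith
    rcases mul_eq_zero.mp h1 with hx | hx
    · exact hx
    · exact absurd (by linarith) (sq_ne_23 (ptX P))
  · intro h0
    rw [h0] at h
    have : ptY P ^ 2 = 0 := by linarith
    exact pow_eq_zero_iff (two_ne_zero) |>.mp this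

theorem eq_T_of_X {P : Pt} (hP : P ≠ 0) (h : ptX P = 0) : P = T :=
  pt_ext hP T_ne (by rw [h, T_X]) (by rw [(ptY_zero_iff hP).2 h, T_Y])

theorem neg_T : -T = T := by
  refine eq_T_of_X (neg_ne_zero.2 T_ne) ?_
  rw [ptX_neg, T_X]

theorem T_add_T : T + T = 0 := by
  nth_rewrite 2 [← neg_T]
  exact add_neg_cancel T

/-- translation by `T` -/
theorem add_T {P : Pt} (hP : P ≠ 0) (hX : ptX P ≠ 0) :
    P + T ≠ 0 ∧ ptX (P + T) = -23 / ptX P := by
  have h := pt_add hP T_ne (by rw [T_X]; exact hX)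
  refine ⟨h.1, ?_⟩
  rw [h.2.1, T_X, T_Y]
  have e := pt_eq hP
  generalize ptX P = x at *
  generalize ptY P = y at *
  field_simp
  linear_combination x * e

end Pool.Agent.H964R2.Lang
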