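import Pool.Agent.H964R2.Lang.Cover

/-!
# Zariski density of the good double covers
-/

namespace Pool.Agent.H964R2.Lang

open MvPolynomial

theorem fn_zero {r m : ℕ} (c : (Fin r → Mon m) → ℚ) :
    fn c 0 0 = c (idx fun _ => true) := by
  classical
  have h : ∀ (s : Mon m) (i : Fin r), mon s ((0 : Fin r → ℚ) i) ((0 : Fin r → ℚ) i) =
      if s = idx (fun _ => true) i then 1 else 0 := by
    intro s i
    rcases s with a | b
    · simp only [mon, idx, Pi.zero_apply, Sum.inl.injEq, if_true]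
      by_cases h : a = 0
      · rw [if_pos h, h]; simp
      · rw [if_neg h, zero_pow]
        intro h1
        apply h
        rw [Fin.ext_iff]; exact h1
    · simp [mon, idx]
  unfold fn
  simp only [h]
  rw [Finset.sum_eq_single (idx fun _ => true)]
  · simp
  · intro s _ hs
    obtain ⟨i, hi⟩ := Function.ne_iff.1 hs
    rw [Finset.prod_eq_zero (Finset.mem_univ i) (if_neg hi), mul_zero]
  · intro h; exact absurd (Finset.mem_univ _) h

/-- **Zariski density**: the coefficient vectors `c` for which `w² = F_c` has exactly two rational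
points are Zariski dense in the space of all coefficient vectors -/
theorem dense {r m : ℕ} (hm : 0 < m) (Ψ : MvPolynomial (Fin r → Mon m) ℚ) (hΨ : Ψ ≠ 0) :
    ∃ (c : (Fin r → Mon m) → ℚ) (n : ℚ), n ≠ 0 ∧ eval c Ψ ≠ 0 ∧
      {q : (Fin r → ℚ) × (Fin r → ℚ) × ℚ |
        (∀ i, q.2.1 i ^ 2 = q.1 i ^ 3 - 23 * q.1 i) ∧ q.2.2 ^ 2 = fn c q.1 q.2.1} =
      {((0 : Fin r → ℚ), (0 : Fin r → ℚ), n), (0, 0, -n)} := by
  classical
  -- the infinite sets of admissible coefficients
  set S : (Fin r → Mon m) → Set ℚ := fun s =>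
    if s = idx (fun _ => true) then Set.range (fun n : ℕ => ((n : ℚ) + 1) ^ 2)
    else if ∃ e : Fin r → Bool, (∃ i, e i = false) ∧ s = idx e then
      Set.range (fun j : ℕ => 17 * ((2 : ℚ) ^ j) ^ 2)
    else Set.range (fun n : ℕ => (n : ℚ)) with hS
  have hinf : ∀ s, (S s).Infinite := by
    intro s
    simp only [hS]
    split_ifs
    · apply Set.infinite_range_of_injective
      intro a b hab
      have h1 : ((a : ℚ) + 1) ^ 2 = ((b : ℚ) + 1) ^ 2 := hab
      have h2 := (pow_left_inj₀ (by positivity) (by positivity) two_ne_zero).1 h1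
      have h3 : (a : ℚ) = b := by linarith
      exact_mod_cast h3
    · apply Set.infinite_range_of_injective
      intro a b hab
      have h1 : 17 * ((2 : ℚ) ^ a) ^ 2 = 17 * ((2 : ℚ) ^ b) ^ 2 := hab
      have h2 : ((2 : ℚ) ^ a) ^ 2 = ((2 : ℚ) ^ b) ^ 2 := by linarith
      have h3 := (pow_left_inj₀ (by positivity) (by positivity) two_ne_zero).1 h2
      exact (pow_right_injective₀ (by norm_num) (by norm_num)) h3
    · apply Set.infinite_range_of_injective
      exact Nat.cast_injective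
  obtain ⟨c, hcS, hc⟩ : ∃ c ∈ Set.pi Set.univ S, eval c Ψ ≠ 0 := by
    by_contra hcon
    push Not at hcon
    apply hΨ
    apply funext_set S hinf
    intro x hx
    rw [hcon x hx, map_zero]
  have hcS' : ∀ s, c s ∈ S s := fun s => hcS s (Set.mem_univ s)
  -- integrality
  have hint : ∀ s, ∃ n : ℤ, (n : ℚ) = c s := by
    intro s
    have h := hcS' s
    simp only [hS] at h
    split_ifs at h
    · obtain ⟨n, hn⟩ := h
      refine ⟨((n : ℤ) + 1) ^ 2, ?_⟩
      rw [← hn]; push_cast; rfl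
    · obtain ⟨j, hj⟩ := h
      refine ⟨17 * (2 ^ j) ^ 2, ?_⟩
      rw [← hj]; push_cast; rfl
    · obtain ⟨n, hn⟩ := h
      exact ⟨n, by rw [← hn]; push_cast; rfl⟩
  choose c' hc' using hint
  have hcc : (fun s => ((c' s : ℤ) : ℚ)) = c := funext hc'
  have hcenter : ∃ n : ℚ, n ≠ 0 ∧ c (idx fun _ => true) = n ^ 2 := by
    have h := hcS' (idx fun _ => true)
    simp only [hS, if_true] at h
    obtain ⟨n, hn⟩ := h
    exact ⟨(n : ℚ) + 1, by positivity, hn.symm⟩
  obtain ⟨n, hn0, hn⟩ := hcenter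
  have hcorner : ∀ e : Fin r → Bool, (∃ i, e i = false) → ∃ k : ℤ, c' (idx e) = 17 * k ^ 2 ∧
      ∀ p, Inert p → ¬ (p : ℤ) ∣ k := by
    intro e he
    have hne : idx e ≠ idx (m := m) (fun _ : Fin r => true) := by
      intro h1
      obtain ⟨i, hi⟩ := he
      have h2 := congrFun h1 i
      simp only [idx, hi, Bool.false_eq_true, if_false, if_true, Sum.inl.injEq] at h2
      rw [Fin.ext_iff] at h2
      have h3 : 2 * m = 0 := h2
      omega
    have h := hcS' (idx e)
    simp only [hS] at h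
    rw [if_neg hne, if_pos ⟨e, he, rfl⟩] at h
    obtain ⟨j, hj⟩ := h
    refine ⟨2 ^ j, ?_, ?_⟩
    · have h1 : ((c' (idx e) : ℤ) : ℚ) = ((17 * (2 ^ j) ^ 2 : ℤ) : ℚ) := by
        rw [hc', ← hj]; push_cast; rfl
      exact_mod_cast h1
    · intro p hp h1
      have hpp : Prime (p : ℤ) := Nat.prime_iff_prime_int.1 hp.1
      have h2 : (p : ℤ) ∣ 2 := hpp.dvd_of_dvd_pow h1
      have h3 : p ∣ 2 := by exact_mod_cast h2
      have h4 : p = 2 := (Nat.prime_dvd_prime_iff_eq hp.1 Nat.prime_two).1 h3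
      apply hp.2.2
      subst h4
      decide
  refine ⟨c, n, hn0, hc, ?_⟩
  ext ⟨x, y, w⟩
  simp only [Set.mem_setOf_eq, Set.mem_insert_iff, Set.mem_singleton_iff, Prod.mk.injEq]
  constructor
  · rintro ⟨hE, hw⟩
    have h := cover c' hcorner x y w hE (by rw [hcc]; exact hw)
    have hx : x = 0 := funext fun i => (h i).1
    have hy : y = 0 := funext fun i => (h i).2
    subst hx hy
    rw [fn_zero, hn] at hw
    rcases sq_eq_sq_iff_eq_or_eq_neg.1 hw with h1 | h1
    · exact Or.inl ⟨rfl, rfl, h1⟩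
    · exact Or.inr ⟨rfl, rfl, h1⟩
  · rintro (⟨rfl, rfl, rfl⟩ | ⟨rfl, rfl, rfl⟩)
    · exact ⟨fun i => by simp, by rw [fn_zero, hn]⟩
    · exact ⟨fun i => by simp, by rw [fn_zero, hn, neg_sq]⟩

end Pool.Agent.H964R2.Lang
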