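import Pool.Agent.H964R2.Lang.Class

/-!
# `E(ℚ) = ℤ P0 ⊕ ⟨T⟩`
-/

namespace Pool.Agent.H964R2.Lang

/-- solutions of `u⁴ = w² + 23 D⁴` bounded by `M` come from multiples of `P0` -/
def Good (M : ℕ) : Prop := ∀ u D w : ℕ, 0 < u → 0 < D → Nat.Coprime u D →
  u ^ 4 = w ^ 2 + 23 * D ^ 4 → u ≤ M → D ≤ M →
  ∀ Q : Pt, Q ≠ 0 → ptX Q = (u : ℚ) ^ 2 / (D : ℚ) ^ 2 → ∃ n : ℤ, Q = n • P0

theorem good_three : Good 3 := by
  intro u D w hu hD hc h huM hDM Q hQ hX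
  exfalso
  have hw : w ≤ 9 := by
    by_contra hcon
    have h1 : 10 ≤ w := by omega
    have h2 : 10 ^ 2 ≤ w ^ 2 := Nat.pow_le_pow_left h1 2
    have h3 : u ^ 4 ≤ 3 ^ 4 := Nat.pow_le_pow_left huM 4
    omega
  interval_cases u <;> interval_cases D <;> interval_cases w <;> omega

/-- doubling -/
theorem halve_pt {u D w : ℕ} (hD : 0 < D) (hc : Nat.Coprime u D)
    (h : u ^ 4 = w ^ 2 + 23 * D ^ 4) (hDe : Even D) {Q : Pt} (hQ : Q ≠ 0)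
    (hX : ptX Q = (u : ℚ) ^ 2 / (D : ℚ) ^ 2) :
    ∃ a b r : ℕ, 0 < a ∧ 0 < b ∧ Nat.Coprime a b ∧ a ^ 4 = r ^ 2 + 23 * b ^ 4 ∧ a ^ 4 ≤ u ∧
      b ^ 4 ≤ u ∧ ∃ Q' : Pt, Q' ≠ 0 ∧ ptX Q' = (a : ℚ) ^ 2 / (b : ℚ) ^ 2 ∧
        (Q = Q' + Q' ∨ Q = -(Q' + Q')) := by
  obtain ⟨a, b, r, ha, hb, hr, hab, h1, h2, h3⟩ := halve hD hc h hDe
  refine ⟨a, b, r, ha, hb, hab, h1, by omega, by omega, ?_⟩
  have ha' : (0 : ℚ) < a := by exact_mod_cast ha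
  have hb' : (0 : ℚ) < b := by exact_mod_cast hb
  have hr' : (0 : ℚ) < r := by exact_mod_cast hr
  have h1' : (a : ℚ) ^ 4 = r ^ 2 + 23 * b ^ 4 := by exact_mod_cast h1
  obtain ⟨Q', hQ', hX', hY'⟩ := exists_pt (z := (a : ℚ) ^ 2 / b ^ 2) (y := a * r / b ^ 3) (by
    have hv2 : (r : ℚ) ^ 2 = a ^ 4 - 23 * b ^ 4 := by linarith
    field_simp
    rw [hv2]; ring)
  refine ⟨Q', hQ', hX', ?_⟩
  have hYne : ptY Q' ≠ 0 := by rw [hY']; positivity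
  obtain ⟨hd1, hd3⟩ := pt_dbl hQ' hYne
  have hXX : ptX (Q' + Q') = ptX Q := by
    rw [hd3, hX, hX', hY', h2, h3]
    push_cast
    field_simp
  rcases (ptX_eq_iff hQ hd1).1 hXX.symm with h | h
  · exact Or.inl h
  · exact Or.inr h

/-- the third point of the line through `Q` and `R` -/
theorem third {Q R : Pt} (hQ : Q ≠ 0) (hR : R ≠ 0) (h : ptX Q ≠ ptX R) :
    ∃ ν : ℚ, ptX Q * ptX R * ptX (Q + R) = ν ^ 2 := by
  obtain ⟨-, h2, -⟩ := pt_add hQ hR h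
  have e1 := pt_eq hQ
  have e2 := pt_eq hR
  refine ⟨ptY Q - (ptY Q - ptY R) / (ptX Q - ptX R) * ptX Q, ?_⟩
  rw [h2]
  have hne : ptX Q - ptX R ≠ 0 := sub_ne_zero.2 h
  generalize ptX Q = x at *
  generalize ptX R = x' at *
  generalize ptY Q = y at *
  generalize ptY R = y' at *
  field_simp
  linear_combination (x - x') * x' * e1 - (x - x') * x * e2

/-- rational squares in lowest terms -/
theorem exists_frac {t z : ℚ} (hz : z ≠ 0) (h : z = t ^ 2) :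
    ∃ p q : ℤ, 0 < p ∧ 0 < q ∧ IsCoprime p q ∧ z = (p : ℚ) ^ 2 / (q : ℚ) ^ 2 := by
  have ht : t ≠ 0 := by rintro rfl; apply hz; rw [h]; norm_num
  refine ⟨|t.num|, t.den, abs_pos.2 (Rat.num_ne_zero.2 ht), by exact_mod_cast t.den_pos, ?_, ?_⟩
  · have h1 := t.reduced
    rw [Int.isCoprime_iff_gcd_eq_one, Int.gcd_eq_natAbs, Int.natAbs_abs, Int.natAbs_natCast]
    exact h1
  · have h2 : ((|t.num| : ℤ) : ℚ) ^ 2 = (t.num : ℚ) ^ 2 := by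
      rw [Int.cast_abs, sq_abs]
    rw [h2, h, ← div_pow]
    congr 1
    have := Rat.num_div_den t
    push_cast
    exact this.symm

/-- translation by `± P0` -/
theorem trans_pt {u D M : ℤ} (hu : 0 < u) (hD : 0 < D) (hue : Even u) (hDo : Odd D)
    (huM : u ≤ M) (hDM : D ≤ M) {Q : Pt} (hQ : Q ≠ 0)
    (hX : ptX Q = (u : ℚ) ^ 2 / (D : ℚ) ^ 2) (hXne : ptX Q ≠ ptX P0) :
    ∃ R : Pt, R ≠ 0 ∧ (R = Q + P0 ∨ R = Q - P0) ∧ ∃ p q : ℤ, 0 < p ∧ 0 < q ∧ IsCoprime p q ∧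
      ptX R = (p : ℚ) ^ 2 / (q : ℚ) ^ 2 ∧ Even q ∧ p ≤ 30 * M ∧ q ≤ 30 * M := by
  have hu' : (0 : ℚ) < u := by exact_mod_cast hu
  have hD' : (0 : ℚ) < D := by exact_mod_cast hD
  have hXne' : ptX Q ≠ ptX (-P0) := by rwa [ptX_neg]
  have hP0' : -P0 ≠ 0 := neg_ne_zero.2 P0_ne
  have hR1 : Q + P0 ≠ 0 := (pt_add hQ P0_ne hXne).1
  have hR2 : Q - P0 ≠ 0 := by rw [sub_eq_add_neg]; exact (pt_add hQ hP0' hXne').1
  have had : 25 * (u : ℚ) ^ 2 - 324 * D ^ 2 ≠ 0 := by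
    intro h1
    apply hXne
    rw [hX, P0_X]
    field_simp
    linarith
  obtain ⟨δ, hδ⟩ : ∃ δ : ℚ, δ = 25 * (u : ℚ) ^ 2 - 324 * D ^ 2 := ⟨_, rfl⟩
  rw [← hδ] at had
  have hprod := pt_prod hQ P0_ne hXne
  have hsum := pt_sum hQ P0_ne hXne
  rw [P0_X, hX] at hprod hsum
  have e5 : ((u : ℚ) ^ 2 / D ^ 2 - 324 / 25) = δ / (25 * D ^ 2) := by
    rw [hδ]
    field_simp
  rw [e5] at hprod hsum
  have hprod' : ptX (Q + P0) * ptX (Q - P0) =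
      ((324 * u ^ 2 + 575 * D ^ 2) / δ) ^ 2 := by
    rw [hprod]
    congr 1
    field_simp
    ring
  have hpne : ptX (Q + P0) * ptX (Q - P0) ≠ 0 := by
    rw [hprod']
    exact pow_ne_zero _ (div_ne_zero (by positivity) had)
  have hXR1 : ptX (Q + P0) ≠ 0 := left_ne_zero_of_mul hpne
  have hXR2 : ptX (Q - P0) ≠ 0 := right_ne_zero_of_mul hpne
  obtain ⟨p, q, hp, hq, hpq, e1⟩ : ∃ p q : ℤ, 0 < p ∧ 0 < q ∧ IsCoprime p q ∧
      ptX (Q + P0) = (p : ℚ) ^ 2 / (q : ℚ) ^ 2 := by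
    obtain ⟨ν, hν⟩ := third hQ P0_ne hXne
    rw [hX, P0_X] at hν
    apply exists_frac hXR1 (t := ν * D * 5 / (u * 18))
    rw [div_pow, mul_pow, mul_pow, ← hν]
    field_simp
    ring
  obtain ⟨r, s, hr, hs, hrs, e2⟩ : ∃ p q : ℤ, 0 < p ∧ 0 < q ∧ IsCoprime p q ∧
      ptX (Q - P0) = (p : ℚ) ^ 2 / (q : ℚ) ^ 2 := by
    obtain ⟨ν, hν⟩ := third hQ hP0' hXne'
    rw [hX, ptX_neg, P0_X, ← sub_eq_add_neg] at hν
    apply exists_frac hXR2 (t := ν * D * 5 / (u * 18))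
    rw [div_pow, mul_pow, mul_pow, ← hν]
    field_simp
    ring
  have hp' : (0 : ℚ) < p := by exact_mod_cast hp
  have hq' : (0 : ℚ) < q := by exact_mod_cast hq
  have hr' : (0 : ℚ) < r := by exact_mod_cast hr
  have hs' : (0 : ℚ) < s := by exact_mod_cast hs
  have i1 : p ^ 2 * r ^ 2 * (25 * u ^ 2 - 324 * D ^ 2) ^ 2 =
      q ^ 2 * s ^ 2 * (324 * u ^ 2 + 575 * D ^ 2) ^ 2 := by
    have : (p : ℚ) ^ 2 * r ^ 2 * (25 * u ^ 2 - 324 * D ^ 2) ^ 2 =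
        q ^ 2 * s ^ 2 * (324 * u ^ 2 + 575 * D ^ 2) ^ 2 := by
      rw [e1, e2] at hprod'
      rw [← hδ]
      field_simp at hprod'
      linear_combination hprod'
    exact_mod_cast this
  have i2 : (p ^ 2 * s ^ 2 + r ^ 2 * q ^ 2) * (25 * u ^ 2 - 324 * D ^ 2) ^ 2 =
      q ^ 2 * s ^ 2 * (2 * (25 * u ^ 2 + 324 * D ^ 2) * (324 * u ^ 2 - 575 * D ^ 2)) := by
    have : ((p : ℚ) ^ 2 * s ^ 2 + r ^ 2 * q ^ 2) * (25 * u ^ 2 - 324 * D ^ 2) ^ 2 =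
        q ^ 2 * s ^ 2 * (2 * (25 * u ^ 2 + 324 * D ^ 2) * (324 * u ^ 2 - 575 * D ^ 2)) := by
      rw [e1, e2] at hsum
      rw [← hδ]
      field_simp at hsum
      linear_combination hsum
    exact_mod_cast this
  have hne : 25 * u ^ 2 - 324 * D ^ 2 ≠ 0 := by
    intro h1
    apply had
    rw [hδ]
    exact_mod_cast h1
  obtain ⟨⟨hqe, hse⟩, h3 | h3⟩ :=
    trans_height hu hD hue hDo hne hp hq hr hs hpq hrs huM hDM i1 i2
  · exact ⟨Q + P0, hR1, Or.inl rfl, p, q, hp, hq, hpq, e1, hqe, h3⟩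
  · exact ⟨Q - P0, hR2, Or.inr rfl, r, s, hr, hs, hrs, e2, hse, h3⟩

/-- a point with `x = u²/D²` gives a solution of `u⁴ = w² + 23 D⁴` -/
theorem exists_w {u D : ℕ} (hu : 0 < u) (hD : 0 < D) {Q : Pt} (hQ : Q ≠ 0)
    (hX : ptX Q = (u : ℚ) ^ 2 / (D : ℚ) ^ 2) : ∃ w : ℕ, u ^ 4 = w ^ 2 + 23 * D ^ 4 := by
  have hu' : (0 : ℚ) < u := by exact_mod_cast hu
  have hD' : (0 : ℚ) < D := by exact_mod_cast hD
  have e := pt_eq hQ
  rw [hX] at e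
  set t : ℚ := ptY Q * D ^ 3 / u with ht
  have h1 : t ^ 2 = (((u : ℤ) ^ 4 - 23 * (D : ℤ) ^ 4 : ℤ) : ℚ) := by
    have : t ^ 2 = ptY Q ^ 2 * D ^ 6 / u ^ 2 := by rw [ht]; field_simp
    rw [this, e]
    push_cast
    field_simp
  have h2 : IsSquare ((u : ℤ) ^ 4 - 23 * (D : ℤ) ^ 4) := by
    rw [← Rat.isSquare_intCast_iff]
    exact ⟨t, by rw [← h1]; ring⟩
  obtain ⟨v, hv⟩ := h2
  refine ⟨v.natAbs, ?_⟩
  have h3 : (u : ℤ) ^ 4 = (v.natAbs : ℤ) ^ 2 + 23 * (D : ℤ) ^ 4 := by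
    rw [Int.natCast_natAbs, sq_abs, sq, ← hv]; ring
  exact_mod_cast h3

/-- parity of `u` and `D` -/
theorem parity {u D w : ℕ} (h : u ^ 4 = w ^ 2 + 23 * D ^ 4)
    (hDo : Odd D) : Even u := by
  rcases Nat.even_or_odd u with h1 | h1
  · exact h1
  · exfalso
    have h4 : ∀ t : ℕ, Odd t → t ^ 4 % 8 = 1 := by
      rintro t ht
      rw [Nat.odd_iff] at ht
      have : t % 8 = 1 ∨ t % 8 = 3 ∨ t % 8 = 5 ∨ t % 8 = 7 := by omega
      rcases this with h | h | h | h <;> simp [Nat.pow_mod, h]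
    have h5 : w ^ 2 % 8 = 0 ∨ w ^ 2 % 8 = 1 ∨ w ^ 2 % 8 = 4 := by
      have : w % 8 = 0 ∨ w % 8 = 1 ∨ w % 8 = 2 ∨ w % 8 = 3 ∨ w % 8 = 4 ∨ w % 8 = 5 ∨ w % 8 = 6 ∨
        w % 8 = 7 := by omega
      rcases this with h | h | h | h | h | h | h | h <;> simp [Nat.pow_mod, h]
    have h6 := h4 u h1
    have h7 := h4 D hDo
    omega

theorem good_of_half {u D w N : ℕ} (hG : Good N) (hD : 0 < D) (hc : Nat.Coprime u D)
    (h : u ^ 4 = w ^ 2 + 23 * D ^ 4) (hDe : Even D) (huN : u < (N + 1) ^ 4)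
    {Q : Pt} (hQ : Q ≠ 0) (hX : ptX Q = (u : ℚ) ^ 2 / (D : ℚ) ^ 2) : ∃ n : ℤ, Q = n • P0 := by
  obtain ⟨a, b, r, ha, hb, hab, h1, hau, hbu, Q', hQ', hX', hQQ⟩ := halve_pt hD hc h hDe hQ hX
  have hA : a ≤ N := by
    have : a ^ 4 < (N + 1) ^ 4 := by omega
    have := lt_of_pow_lt_pow_left₀ 4 (by omega) this
    omega
  have hB : b ≤ N := by
    have : b ^ 4 < (N + 1) ^ 4 := by omega
    have := lt_of_pow_lt_pow_left₀ 4 (by omega) this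
    omega
  obtain ⟨n, hn⟩ := hG a b r ha hb hab h1 hA hB Q' hQ' hX'
  rcases hQQ with h2 | h2
  · exact ⟨n + n, by rw [h2, hn, add_zsmul]⟩
  · exact ⟨-(n + n), by rw [h2, hn, neg_zsmul, add_zsmul]⟩

theorem good_step {N : ℕ} (hN : 3 ≤ N) (hG : Good N) : Good (N + 1) := by
  intro u D w hu hD hc h huM hDM Q hQ hX
  have hN4 : 30 * (N + 1) < (N + 1) ^ 4 := by
    have h1 : 4 ^ 3 ≤ (N + 1) ^ 3 := Nat.pow_le_pow_left (by omega) 3
    have h2 : (N + 1) ^ 4 = (N + 1) ^ 3 * (N + 1) := by ring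
    rw [h2]
    nlinarith
  rcases Nat.even_or_odd D with hDe | hDo
  · exact good_of_half hG hD hc h hDe (by omega) hQ hX
  · by_cases hne : ptX Q = ptX P0
    · rcases (ptX_eq_iff hQ P0_ne).1 hne with h1 | h1
      · exact ⟨1, by rw [one_zsmul]; exact h1⟩
      · exact ⟨-1, by rw [neg_zsmul, one_zsmul]; exact h1⟩
    · have hue := parity h hDo
      obtain ⟨R, hR, hRQ, p, q, hp, hq, hpq, hXR, hqe, b1, b2⟩ :=
        trans_pt (u := u) (D := D) (M := ((N + 1 : ℕ) : ℤ)) (by exact_mod_cast hu)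
          (by exact_mod_cast hD) (by exact_mod_cast hue) (by exact_mod_cast hDo)
          (by exact_mod_cast huM) (by exact_mod_cast hDM) hQ (by rw [hX]; push_cast; rfl) hne
      obtain ⟨p, rfl⟩ := Int.eq_ofNat_of_zero_le hp.le
      obtain ⟨q, rfl⟩ := Int.eq_ofNat_of_zero_le hq.le
      have hXR' : ptX R = (p : ℚ) ^ 2 / (q : ℚ) ^ 2 := by rw [hXR]; push_cast; rfl
      have hp' : 0 < p := by exact_mod_cast hp
      have hq' : 0 < q := by exact_mod_cast hq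
      obtain ⟨w', hw'⟩ := exists_w hp' hq' hR hXR'
      have b1' : p ≤ 30 * (N + 1) := by exact_mod_cast b1
      obtain ⟨n, hn⟩ := good_of_half hG hq' (Nat.isCoprime_iff_coprime.1 hpq) hw'
        (by exact_mod_cast hqe) (by omega) hR hXR'
      rcases hRQ with h5 | h5
      · refine ⟨n - 1, ?_⟩
        rw [sub_zsmul, one_zsmul, ← hn, h5]; abel
      · refine ⟨n + 1, ?_⟩
        rw [add_zsmul, one_zsmul, ← hn, h5]; abel

theorem good_all (M : ℕ) : Good (M + 3) := by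
  induction M with
  | zero => simpa using good_three
  | succ n ih =>
    have := good_step (by omega : 3 ≤ n + 3) ih
    have e : n + 1 + 3 = n + 3 + 1 := by omega
    rw [e]; exact this

/-- the Mordell–Weil group of `E` -/
theorem mordell_weil (P : Pt) : ∃ n : ℤ, P = n • P0 ∨ P = n • P0 + T := by
  by_cases hP : P = 0
  · exact ⟨0, Or.inl (by rw [zero_zsmul]; exact hP)⟩
  by_cases hX : ptX P = 0
  · refine ⟨0, Or.inr ?_⟩
    rw [zero_zsmul, zero_add]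
    exact eq_T_of_X hP hX
  obtain ⟨u, D, w, hu, hD, hc, h, hcase⟩ := class_pt hP hX
  have hG := good_all (max u D)
  rcases hcase with h1 | h1
  · obtain ⟨n, hn⟩ := hG u D w hu hD hc h (by omega) (by omega) P hP h1
    exact ⟨n, Or.inl hn⟩
  · obtain ⟨n, hn⟩ := hG u D w hu hD hc h (by omega) (by omega) (P + T) (add_T hP hX).1 h1
    refine ⟨n, Or.inr ?_⟩
    rw [← hn, add_assoc, T_add_T, add_zero]

end Pool.Agent.H964R2.Lang
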