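import Pool.Agent.H964R2.Lang.Val
import Pool.Agent.H964R2.Lang.Curve

/-!
# Points with a pole at `s` form a subgroup
-/

namespace Pool.Agent.H964R2.Lang

theorem ne_zero_of_pole {s : ℕ} {P : Pt} (h : padicValRat s (ptX P) < 0) :
    ptX P ≠ 0 ∧ P ≠ 0 := by
  have h0 : ptX P ≠ 0 := ne_zero_of_val h.ne
  refine ⟨h0, ?_⟩
  rintro rfl
  exact h0 rfl

theorem pole_val {s : ℕ} (hs : s.Prime) {P : Pt} (h : padicValRat s (ptX P) < 0) :
    ∃ d : ℕ, 1 ≤ d ∧ padicValRat s (ptX P) = -2 * d ∧ padicValRat s (ptY P) = -3 * d := by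
  obtain ⟨h0, hP⟩ := ne_zero_of_pole h
  have heq := pt_eq hP
  set X := ptX P with hX
  set Y := ptY P with hY
  have hv3 : padicValRat s (X ^ 3) = 3 * padicValRat s X := by
    rw [val_pow hs]; norm_num
  have h65 : Vge s (padicValRat s X) (23 * X) := Vge.ofNat_mul hs 23 (Vge.self s X)
  have hsub : Vge s (padicValRat s (X ^ 3) + 1) (23 * X) := by
    rw [hv3]
    exact h65.mono (by omega)
  obtain ⟨-, hval⟩ := val_sub hs (pow_ne_zero 3 h0) hsub
  rw [← heq, val_pow hs, hv3] at hval
  have hval' : 2 * padicValRat s Y = 3 * padicValRat s X := by exact_mod_cast hval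
  refine ⟨(- padicValRat s X / 2).toNat, ?_, ?_, ?_⟩ <;> omega

theorem pole_add {s : ℕ} (hs : s.Prime) {P Q : Pt} (hP : padicValRat s (ptX P) < 0)
    (hQ : padicValRat s (ptX Q) < 0) : P + Q = 0 ∨ padicValRat s (ptX (P + Q)) < 0 := by
  obtain ⟨hX1, hP0⟩ := ne_zero_of_pole hP
  obtain ⟨hX2, hQ0⟩ := ne_zero_of_pole hQ
  obtain ⟨d1, hd1, hv1, hw1⟩ := pole_val hs hP
  obtain ⟨d2, hd2, hv2, hw2⟩ := pole_val hs hQ
  by_cases heq : ptX P = ptX Q
  · rcases (ptX_eq_iff hP0 hQ0).1 heq with h | h
    · right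
      subst h
      have hY : ptY P ≠ 0 := ne_zero_of_val (s := s) (by omega)
      obtain ⟨-, hx⟩ := pt_dbl hP0 hY
      rw [hx]
      have h1 : padicValRat s (ptX P ^ 2) = -4 * d1 := by
        rw [val_pow hs, hv1]; push_cast; ring
      obtain ⟨hne, hval⟩ := val_add hs (y := 23) (pow_ne_zero 2 hX1)
        ((vge_ofNat s 23).mono (by omega))
      have h2 : 0 ≤ padicValRat s (2 : ℚ) := (vge_ofNat s 2).le (by norm_num)
      rw [val_pow hs, val_div hs hne (mul_ne_zero two_ne_zero hY), val_mul hs two_ne_zero hY,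
        hval, h1, hw1]
      push_cast
      omega
    · left; rw [h]; simp
  · right
    have hprod := pt_prod hP0 hQ0 heq
    have hsum := pt_sum hP0 hQ0 heq
    set X1 := ptX P
    set X2 := ptX Q
    set A := ptX (P + Q)
    set B := ptX (P - Q)
    have hD : X1 - X2 ≠ 0 := sub_ne_zero.2 heq
    have hX12 : X1 * X2 ≠ 0 := mul_ne_zero hX1 hX2
    have hv12 : padicValRat s (X1 * X2) = -2 * d1 - 2 * d2 := by
      rw [val_mul hs hX1 hX2, hv1, hv2]; ring
    obtain ⟨hne, hval⟩ := val_add hs (y := 23) hX12 ((vge_ofNat s 23).mono (by omega))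
    obtain ⟨hne', hval'⟩ := val_sub hs (y := 23) hX12 ((vge_ofNat s 23).mono (by omega))
    -- lower bound for the valuation of the difference
    have hδ : Vge s (- 2 * max (d1 : ℤ) d2) (X1 - X2) :=
      Vge.sub hs ((Vge.self s X1).mono (by omega)) ((Vge.self s X2).mono (by omega))
    have hδ' := hδ.le hD
    set δ := padicValRat s (X1 - X2)
    have hprodne : A * B ≠ 0 := by
      rw [hprod]; exact pow_ne_zero 2 (div_ne_zero hne hD)
    have hA : A ≠ 0 := left_ne_zero_of_mul hprodne
    have hB : B ≠ 0 := right_ne_zero_of_mul hprodne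
    have hvprod : padicValRat s A + padicValRat s B = 2 * ((-2 * d1 - 2 * d2) - δ) := by
      rw [← val_mul hs hA hB, hprod, val_pow hs, val_div hs hne hD, hval, hv12]
      push_cast; ring
    by_contra hcon
    push Not at hcon
    have hBneg : padicValRat s B < 0 := by omega
    -- sum
    have hnum : Vge s ((-2 * d1 - 2 * d2) - 2 * max (d1 : ℤ) d2)
        (2 * ((X1 + X2) * (X1 * X2 - 23))) := by
      apply Vge.ofNat_mul hs 2
      have h1 : Vge s (-2 * max (d1 : ℤ) d2) (X1 + X2) :=
        Vge.add hs ((Vge.self s X1).mono (by omega)) ((Vge.self s X2).mono (by omega))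
      have h2 : Vge s (-2 * d1 - 2 * d2 : ℤ) (X1 * X2 - 23) := by
        rw [← hv12, ← hval']; exact Vge.self _ _
      exact (Vge.mul hs h1 h2).mono (by omega)
    obtain ⟨hBA, hvBA⟩ := val_add hs (y := A) hB ((Vge.self s A).mono (by omega))
    rw [add_comm] at hBA hvBA
    have hden : (X1 - X2) ^ 2 ≠ 0 := pow_ne_zero 2 hD
    have hnum0 : 2 * ((X1 + X2) * (X1 * X2 - 23)) ≠ 0 := by
      intro h
      rw [h, zero_div] at hsum
      exact hBA hsum
    have hv := hnum.le hnum0
    rw [hsum, val_div hs hnum0 hden, val_pow hs] at hvBA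
    push_cast at hvBA
    omega

/-- the kernel of reduction at the prime `p`: the point `O` and the points with a pole at `p` -/
def Ker (p : ℕ) [hp : Fact p.Prime] : AddSubgroup Pt where
  carrier := {P | P = 0 ∨ padicValRat p (ptX P) < 0}
  zero_mem' := Or.inl rfl
  add_mem' := by
    rintro P Q (rfl | hP) (rfl | hQ)
    · left; simp
    · right; simpa using hQ
    · right; simpa using hP
    · exact pole_add hp.out hP hQ
  neg_mem' := by
    rintro P (rfl | hP)
    · left; simp
    · right
      change padicValRat p (ptX (-P)) < 0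
      rw [ptX_neg]; exact hP

theorem mem_Ker {p : ℕ} [Fact p.Prime] {P : Pt} :
    P ∈ Ker p ↔ P = 0 ∨ padicValRat p (ptX P) < 0 := Iff.rfl

/-- `P + T` is in the kernel of reduction iff `P` reduces to `T` -/
theorem add_T_mem_Ker {p : ℕ} [hp : Fact p.Prime] (h23 : p ≠ 23) {P : Pt} (hP : P ≠ 0) :
    P + T ∈ Ker p ↔ P = T ∨ 0 < padicValRat p (ptX P) := by
  rw [mem_Ker]
  by_cases hX : ptX P = 0
  · have : P = T := eq_T_of_X hP hX
    subst this
    simp [T_add_T]
  · obtain ⟨h1, h2⟩ := add_T hP hX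
    have hPT : P ≠ T := by
      rintro rfl; exact hX T_X
    have hv : padicValRat p (ptX (P + T)) = - padicValRat p (ptX P) := by
      rw [h2, val_div hp.out (by norm_num) hX, padicValRat.neg]
      have : padicValRat p (23 : ℚ) = 0 := by
        have h3 : padicValRat p ((23 : ℕ) : ℚ) = ((padicValNat p 23 : ℕ) : ℤ) :=
          padicValRat.of_nat
        have h4 : padicValNat p 23 = 0 := by
          apply padicValNat.eq_zero_of_not_dvd
          intro h5
          exact h23 ((Nat.prime_dvd_prime_iff_eq hp.out (by norm_num)).1 h5)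
        rw [h4] at h3
        exact_mod_cast h3
      rw [this]; ring
    constructor
    · rintro (h | h)
      · exact absurd h h1
      · right; omega
    · rintro (h | h)
      · exact absurd h hPT
      · right; omega

end Pool.Agent.H964R2.Lang
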