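import Pool.Agent.H964R2.Lang.Filt
import Pool.Agent.H964R2.Lang.Halve

/-!
# For every `s` there is a prime `p`, inert in `ℚ(√17)`, with `2^s P0 ≡ T mod p`
-/

namespace Pool.Agent.H964R2.Lang

open scoped NumberTheorySymbols

/-- primes `≠ 23` which are inert in `ℚ(√17)` -/
def Inert (p : ℕ) : Prop := p.Prime ∧ p ≠ 23 ∧ ¬ IsSquare (17 : ZMod p)

/-- the invariants of the doubling sequence -/
structure Inv (u D w : ℕ) : Prop where
  hu : 0 < u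
  hD : 0 < D
  hw : 0 < w
  eq : u ^ 4 = w ^ 2 + 23 * D ^ 4
  cop : Nat.Coprime u D
  par : Odd (u + D)
  h23 : ¬ 23 ∣ u
  h17 : ¬ 17 ∣ D
  md : (u ^ 2 % 17 = 2 * D ^ 2 % 17) ∨ (u ^ 2 % 17 = 15 * D ^ 2 % 17)

theorem inv_zero : Inv 18 5 301 where
  hu := by norm_num
  hD := by norm_num
  hw := by norm_num
  eq := by norm_num
  cop := by norm_num
  par := by decide
  h23 := by norm_num
  h17 := by norm_num
  md := by norm_num

theorem mod17 : ∀ u D w : ZMod 17, D ≠ 0 → u ^ 4 = w ^ 2 + 23 * D ^ 4 →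
    (u ^ 2 = 2 * D ^ 2 ∨ u ^ 2 = 15 * D ^ 2) →
    2 * u * D * w ≠ 0 ∧ u ^ 4 + 23 * D ^ 4 = 10 * D ^ 4 ∧
    ((u ^ 4 + 23 * D ^ 4) ^ 2 = 2 * (2 * u * D * w) ^ 2 ∨
      (u ^ 4 + 23 * D ^ 4) ^ 2 = 15 * (2 * u * D * w) ^ 2) := by
  decide

theorem Inv.step {u D w : ℕ} (h : Inv u D w) : ∃ w' : ℕ, Inv (u ^ 4 + 23 * D ^ 4) (2 * u * D * w) w' := by
  obtain ⟨hu, hD, hw, eq, cop, par, h23, h17, md⟩ := h
  have hodd : Odd (u ^ 4 + 23 * D ^ 4) := by
    rcases Nat.even_or_odd u with h1 | h1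
    · have h2 : Odd D := by
        rcases Nat.even_or_odd D with h2 | h2
        · exact absurd (h1.add h2) (Nat.not_even_iff_odd.2 par)
        · exact h2
      exact (h1.pow_of_ne_zero (by norm_num)).add_odd ((by decide : Odd 23).mul h2.pow)
    · have h2 : Even D := by
        rcases Nat.even_or_odd D with h2 | h2
        · exact h2
        · exact absurd (h1.add_odd h2) (Nat.not_even_iff_odd.2 par)
      exact h1.pow.add_even ((h2.pow_of_ne_zero (by norm_num)).mul_left _)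
  have hcop : Nat.Coprime (u ^ 4 + 23 * D ^ 4) (2 * u * D * w) := by
    apply coprime_of_prime
    intro p hp h1 h2
    have h3 : ¬ p ∣ 2 := by
      intro h4
      have h5 : p = 2 := (Nat.prime_dvd_prime_iff_eq hp Nat.prime_two).1 h4
      rw [h5] at h1
      exact (Nat.not_even_iff_odd.2 hodd) (even_iff_two_dvd.2 h1)
    -- `p ∣ u` is impossible
    have hpu : ¬ p ∣ u := by
      intro h4
      have h5 : p ∣ 23 * D ^ 4 := (Nat.dvd_add_right (dvd_pow h4 (by norm_num))).1 h1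
      rcases (hp.dvd_mul).1 h5 with h6 | h6
      · have h7 : p = 23 := (Nat.prime_dvd_prime_iff_eq hp prime23).1 h6
        rw [h7] at h4; exact h23 h4
      · have h7 := Nat.dvd_gcd h4 (hp.dvd_of_dvd_pow h6)
        rw [Nat.Coprime] at cop
        rw [cop] at h7
        exact hp.one_lt.ne' (Nat.dvd_one.1 h7)
    rcases (hp.dvd_mul).1 h2 with h4 | h4
    · rcases (hp.dvd_mul).1 h4 with h5 | h5
      · rcases (hp.dvd_mul).1 h5 with h6 | h6
        · exact h3 h6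
        · exact hpu h6
      · have h6 : p ∣ u ^ 4 := (Nat.dvd_add_left (Dvd.dvd.mul_left (dvd_pow h5 (by norm_num)) _)).1 h1
        exact hpu (hp.dvd_of_dvd_pow h6)
    · -- `p ∣ w`: then `p ∣ 2 u⁴`
      have h5 : p ∣ 2 * u ^ 4 := by
        have h6 : 2 * u ^ 4 = (u ^ 4 + 23 * D ^ 4) + w ^ 2 := by omega
        rw [h6]; exact Nat.dvd_add h1 (dvd_pow h4 (by norm_num))
      rcases (hp.dvd_mul).1 h5 with h6 | h6
      · exact h3 h6
      · exact hpu (hp.dvd_of_dvd_pow h6)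
  -- modulo 17
  have hD17 : (D : ZMod 17) ≠ 0 := by
    intro h1; exact h17 ((ZMod.natCast_eq_zero_iff D 17).1 h1)
  have heq17 : (u : ZMod 17) ^ 4 = (w : ZMod 17) ^ 2 + 23 * (D : ZMod 17) ^ 4 := by
    have : ((u ^ 4 : ℕ) : ZMod 17) = ((w ^ 2 + 23 * D ^ 4 : ℕ) : ZMod 17) := by rw [eq]
    push_cast at this
    exact this
  have hmd17 : (u : ZMod 17) ^ 2 = 2 * (D : ZMod 17) ^ 2 ∨ (u : ZMod 17) ^ 2 = 15 * (D : ZMod 17) ^ 2 := by
    rcases md with h1 | h1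
    · left
      have := (ZMod.natCast_eq_natCast_iff (u ^ 2) (2 * D ^ 2) 17).2 h1
      push_cast at this
      exact this
    · right
      have := (ZMod.natCast_eq_natCast_iff (u ^ 2) (15 * D ^ 2) 17).2 h1
      push_cast at this
      exact this
  obtain ⟨m1, -, m2⟩ := mod17 _ _ _ hD17 heq17 hmd17
  have hw2 : ((w : ℤ) ^ 4 - 92 * u ^ 4 * D ^ 4) ^ 2 + 23 * (2 * u * D * w) ^ 4 = (u ^ 4 + 23 * D ^ 4) ^ 4 := by
    have e : (u : ℤ) ^ 4 = w ^ 2 + 23 * D ^ 4 := by exact_mod_cast eq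
    have e2 : (w : ℤ) ^ 2 = u ^ 4 - 23 * D ^ 4 := by linarith
    have e4 : (w : ℤ) ^ 4 = (u ^ 4 - 23 * D ^ 4) ^ 2 := by rw [← e2]; ring
    have e5 : (2 * (u : ℤ) * D * w) ^ 4 = 16 * u ^ 4 * D ^ 4 * (u ^ 4 - 23 * D ^ 4) ^ 2 := by
      rw [← e4]; ring
    rw [e5, e4]; ring
  have hDpos : 0 < 2 * u * D * w := by positivity
  refine ⟨((w : ℤ) ^ 4 - 92 * u ^ 4 * D ^ 4).natAbs, ?_, hDpos, ?_, ?_, hcop, ?_, ?_, ?_, ?_⟩
  · positivity
  · -- `w' ≠ 0`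
    rw [Int.natAbs_pos]
    intro h0
    rw [h0] at hw2
    -- `23 D'^4 = u'^4` contradicts `23 ∤ u'`
    have h1 : 23 * (2 * u * D * w) ^ 4 = (u ^ 4 + 23 * D ^ 4) ^ 4 := by
      have h2 : 23 * (2 * (u : ℤ) * D * w) ^ 4 = (u ^ 4 + 23 * D ^ 4) ^ 4 := by
        rw [← hw2]; ring
      exact_mod_cast h2
    have h3 : 23 ∣ u ^ 4 + 23 * D ^ 4 := prime23.dvd_of_dvd_pow (n := 4) ⟨_, h1.symm⟩
    have h4 : 23 ∣ u ^ 4 := (Nat.dvd_add_left (Dvd.intro _ rfl)).1 h3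
    exact h23 (prime23.dvd_of_dvd_pow h4)
  · have h1 : ((u ^ 4 + 23 * D ^ 4 : ℕ) : ℤ) ^ 4 =
        ((((w : ℤ) ^ 4 - 92 * u ^ 4 * D ^ 4).natAbs : ℕ) : ℤ) ^ 2 + 23 * ((2 * u * D * w : ℕ) : ℤ) ^ 4 := by
      rw [Int.natCast_natAbs, sq_abs]
      push_cast
      rw [hw2]
    exact_mod_cast h1
  · exact hodd.add_even ⟨u * D * w, by ring⟩
  · intro h3
    have h4 : 23 ∣ u ^ 4 := (Nat.dvd_add_left (Dvd.intro _ rfl)).1 h3
    exact h23 (prime23.dvd_of_dvd_pow h4)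
  · intro h3
    apply m1
    have := (ZMod.natCast_eq_zero_iff (2 * u * D * w) 17).2 h3
    push_cast at this
    exact this
  · rcases m2 with h1 | h1
    · left
      apply (ZMod.natCast_eq_natCast_iff _ _ 17).1
      push_cast
      exact h1
    · right
      apply (ZMod.natCast_eq_natCast_iff _ _ 17).1
      push_cast
      exact h1

/-- the prime divisor given by quadratic reciprocity -/
theorem Inv.exists_prime {u D w : ℕ} (h : Inv u D w) :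
    ∃ p : ℕ, Inert p ∧ p ∣ (u ^ 4 + 23 * D ^ 4) := by
  obtain ⟨w', h'⟩ := h.step
  have hodd : Odd (u ^ 4 + 23 * D ^ 4) := by
    have h1 := h'.par
    rcases Nat.even_or_odd (u ^ 4 + 23 * D ^ 4) with h2 | h2
    · exact absurd (h2.add (⟨u * D * w, by ring⟩ : Even (2 * u * D * w))) (Nat.not_even_iff_odd.2 h1)
    · exact h2
  obtain ⟨hu, hD, hw, eq, cop, par, h23, h17, md⟩ := h
  have hD17 : (D : ZMod 17) ≠ 0 := by
    intro h1; exact h17 ((ZMod.natCast_eq_zero_iff D 17).1 h1)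
  have heq17 : (u : ZMod 17) ^ 4 = (w : ZMod 17) ^ 2 + 23 * (D : ZMod 17) ^ 4 := by
    have : ((u ^ 4 : ℕ) : ZMod 17) = ((w ^ 2 + 23 * D ^ 4 : ℕ) : ZMod 17) := by rw [eq]
    push_cast at this
    exact this
  have hmd17 : (u : ZMod 17) ^ 2 = 2 * (D : ZMod 17) ^ 2 ∨ (u : ZMod 17) ^ 2 = 15 * (D : ZMod 17) ^ 2 := by
    rcases md with h1 | h1
    · left
      have := (ZMod.natCast_eq_natCast_iff (u ^ 2) (2 * D ^ 2) 17).2 h1
      push_cast at this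
      exact this
    · right
      have := (ZMod.natCast_eq_natCast_iff (u ^ 2) (15 * D ^ 2) 17).2 h1
      push_cast at this
      exact this
  obtain ⟨-, m1, -⟩ := mod17 _ _ _ hD17 heq17 hmd17
  have h1 : ¬ IsSquare (((u ^ 4 + 23 * D ^ 4 : ℕ) : ℤ) : ZMod 17) := by
    have e : (((u ^ 4 + 23 * D ^ 4 : ℕ) : ℤ) : ZMod 17) = 10 * (D : ZMod 17) ^ 4 := by
      rw [← m1]; push_cast; rfl
    rw [e]
    have : ∀ d : ZMod 17, d ≠ 0 → ¬ IsSquare (10 * d ^ 4) := by decide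
    exact this _ hD17
  have hp17 : Fact (Nat.Prime 17) := ⟨by norm_num⟩
  have h2 : J(((u ^ 4 + 23 * D ^ 4 : ℕ) : ℤ) | 17) = -1 :=
    ZMod.nonsquare_iff_jacobiSym_eq_neg_one.2 h1
  have h3 : J(((17 : ℕ) : ℤ) | (u ^ 4 + 23 * D ^ 4)) = -1 := by
    rw [jacobiSym.quadratic_reciprocity_one_mod_four (a := 17) (by norm_num) hodd, h2]
  obtain ⟨p, hp, hpd, hJ⟩ := jacobiSym.eq_neg_one_at_prime_divisor_of_eq_neg_one h3
  have hpF : Fact p.Prime := ⟨hp⟩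
  refine ⟨p, ⟨hp, ?_, ?_⟩, hpd⟩
  · rintro rfl
    exact h'.h23 hpd
  · have := ZMod.nonsquare_iff_jacobiSym_eq_neg_one.1 hJ
    push_cast at this
    exact this

/-- doubling in coordinates -/
theorem dbl_coord {u D w : ℕ} (h : Inv u D w) {Q : Pt} (hQ : Q ≠ 0)
    (hX : ptX Q = (u : ℚ) ^ 2 / (D : ℚ) ^ 2) :
    Q + Q ≠ 0 ∧ ptX (Q + Q) = ((u ^ 4 + 23 * D ^ 4 : ℕ) : ℚ) ^ 2 / ((2 * u * D * w : ℕ) : ℚ) ^ 2 := by
  have hu : (0 : ℚ) < u := by exact_mod_cast h.hu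
  have hD : (0 : ℚ) < D := by exact_mod_cast h.hD
  have hw : (0 : ℚ) < w := by exact_mod_cast h.hw
  have e : (u : ℚ) ^ 4 = w ^ 2 + 23 * D ^ 4 := by exact_mod_cast h.eq
  have hY2 : ptY Q ^ 2 = (u * w / D ^ 3) ^ 2 := by
    rw [pt_eq hQ, hX]
    have e2 : (w : ℚ) ^ 2 = u ^ 4 - 23 * D ^ 4 := by linarith
    have e3 : ((u : ℚ) * w / D ^ 3) ^ 2 = u ^ 2 * w ^ 2 / D ^ 6 := by field_simp
    rw [e3, e2]
    field_simp
  have hY : ptY Q ≠ 0 := by
    intro h0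
    rw [h0] at hY2
    have : (0 : ℚ) < (u * w / D ^ 3) ^ 2 := by positivity
    rw [← hY2] at this
    norm_num at this
  obtain ⟨h1, h2⟩ := pt_dbl hQ hY
  refine ⟨h1, ?_⟩
  rw [h2, div_pow, mul_pow, hY2, hX]
  push_cast
  field_simp

/-- the doubling sequence -/
theorem seq (s : ℕ) : ∃ u D w : ℕ, Inv u D w ∧ ((2 : ℤ) ^ s) • P0 ≠ 0 ∧
    ptX (((2 : ℤ) ^ s) • P0) = (u : ℚ) ^ 2 / (D : ℚ) ^ 2 ∧ s < D := by
  induction s with
  | zero =>
    refine ⟨18, 5, 301, inv_zero, ?_, ?_, by norm_num⟩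
    · rw [pow_zero, one_zsmul]; exact P0_ne
    · rw [pow_zero, one_zsmul, P0_X]; norm_num
  | succ s ih =>
    obtain ⟨u, D, w, hI, h0, hX, hs⟩ := ih
    obtain ⟨w', hI'⟩ := hI.step
    have e : ((2 : ℤ) ^ (s + 1)) • P0 = ((2 : ℤ) ^ s) • P0 + ((2 : ℤ) ^ s) • P0 := by
      rw [← add_zsmul]; congr 1; ring
    obtain ⟨h1, h2⟩ := dbl_coord hI h0 hX
    refine ⟨_, _, w', hI', by rw [e]; exact h1, by rw [e]; exact h2, ?_⟩
    have h3 : 1 ≤ u * w := Nat.mul_pos hI.hu hI.hw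
    have h4 : D * 1 ≤ D * (u * w) := Nat.mul_le_mul_left D h3
    have h5 : 2 * u * D * w = 2 * (D * (u * w)) := by ring
    omega

/-- **Main local lemma**: for every `s` there is an inert prime `p` with `2^s P0 ≡ T mod p` -/
theorem exists_red (s : ℕ) : ∃ p : ℕ, Inert p ∧ 0 < padicValRat p (ptX (((2 : ℤ) ^ s) • P0)) := by
  have val_pos : ∀ {p u D : ℕ}, p.Prime → 0 < u → 0 < D → Nat.Coprime u D → p ∣ u →
      0 < padicValRat p ((u : ℚ) ^ 2 / (D : ℚ) ^ 2) := by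
    intro p u D hp hu hD hc hpu
    have hpF : Fact p.Prime := ⟨hp⟩
    have hu' : (u : ℚ) ≠ 0 := by exact_mod_cast hu.ne'
    have hD' : (D : ℚ) ≠ 0 := by exact_mod_cast hD.ne'
    have h1 : ¬ p ∣ D := by
      intro h2
      have h3 := Nat.dvd_gcd hpu h2
      rw [Nat.Coprime] at hc
      rw [hc] at h3
      exact hp.one_lt.ne' (Nat.dvd_one.1 h3)
    rw [padicValRat.div (pow_ne_zero 2 hu') (pow_ne_zero 2 hD'), padicValRat.pow, padicValRat.pow,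
      padicValRat.of_nat, padicValRat.of_nat, padicValNat.eq_zero_of_not_dvd h1]
    have h2 : 1 ≤ padicValNat p u := one_le_padicValNat_of_dvd hu.ne' hpu
    push_cast
    have h3 : (1 : ℤ) ≤ (padicValNat p u : ℤ) := by exact_mod_cast h2
    linarith
  rcases s with _ | s
  · refine ⟨3, ⟨Nat.prime_three, by norm_num, by decide⟩, ?_⟩
    rw [pow_zero, one_zsmul, P0_X]
    have : (324 / 25 : ℚ) = ((18 : ℕ) : ℚ) ^ 2 / ((5 : ℕ) : ℚ) ^ 2 := by norm_num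
    rw [this]
    exact val_pos Nat.prime_three (by norm_num) (by norm_num) (by norm_num) (by norm_num)
  · obtain ⟨u, D, w, hI, h0, hX, -⟩ := seq s
    obtain ⟨w', hI'⟩ := hI.step
    obtain ⟨p, hp, hpd⟩ := hI.exists_prime
    have e : ((2 : ℤ) ^ (s + 1)) • P0 = ((2 : ℤ) ^ s) • P0 + ((2 : ℤ) ^ s) • P0 := by
      rw [← add_zsmul]; congr 1; ring
    refine ⟨p, hp, ?_⟩
    rw [e, (dbl_coord hI h0 hX).2]
    exact val_pos hp.1 hI'.hu hI'.hD hI'.cop hpd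

/-- multiples of `P0` are nonzero -/
theorem two_pow_ne (s : ℕ) : ((2 : ℤ) ^ s) • P0 ≠ 0 := by
  obtain ⟨_, _, _, _, h, _, _⟩ := seq s
  exact h

/-- `E(ℚ)` is infinite -/
theorem infinite_points : {q : ℚ × ℚ | q.2 ^ 2 = q.1 ^ 3 - 23 * q.1}.Infinite := by
  apply Set.Infinite.of_image (fun q : ℚ × ℚ => q.1.den)
  apply Set.infinite_of_forall_exists_gt
  intro n
  obtain ⟨u, D, w, hI, h0, hX, hs⟩ := seq n
  have hden : (ptX (((2 : ℤ) ^ n) • P0)).den = D ^ 2 := by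
    have h1 : Nat.Coprime (u ^ 2) (D ^ 2) := Nat.Coprime.pow 2 2 hI.cop
    have h2 : (((u ^ 2 : ℕ) : ℤ) / ((D ^ 2 : ℕ) : ℤ) : ℚ).den = D ^ 2 := by
      have h3 := Rat.den_div_eq_of_coprime (a := ((u ^ 2 : ℕ) : ℤ)) (b := ((D ^ 2 : ℕ) : ℤ))
        (by have := hI.hD; positivity) (by rw [Int.natAbs_natCast, Int.natAbs_natCast]; exact h1)
      exact_mod_cast h3
    rw [hX, ← h2]
    congr 1
  refine ⟨D ^ 2, ⟨(ptX (((2 : ℤ) ^ n) • P0), ptY (((2 : ℤ) ^ n) • P0)), pt_eq h0, hden⟩, ?_⟩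
  have := hI.hD
  nlinarith

/-- `5` is inert and divides the denominator of `P0` -/
theorem five_inert : Inert 5 := ⟨by norm_num, by norm_num, by decide⟩

theorem P0_mem_Ker : padicValRat 5 (ptX P0) < 0 := by
  have hpF : Fact (Nat.Prime 5) := ⟨by norm_num⟩
  rw [P0_X]
  have e : (324 / 25 : ℚ) = ((324 : ℕ) : ℚ) / ((5 : ℕ) : ℚ) ^ 2 := by norm_num
  rw [e, padicValRat.div (by norm_num) (by norm_num), padicValRat.pow, padicValRat.of_nat,
    padicValRat.of_nat, padicValNat.eq_zero_of_not_dvd (by norm_num : ¬ 5 ∣ 324), padicValNat_self]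
  norm_num

end Pool.Agent.H964R2.Lang
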