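import Pool.Agent.H964R2.Lang.Descent
import Pool.Agent.H964R2.Lang.Recip

/-!
# Key lemma: simultaneous reduction of a tuple of rational points to `{O, T}`
-/

namespace Pool.Agent.H964R2.Lang

theorem two_T : T + T = 0 := T_add_T

/-- **Key lemma**. For every finite family of affine rational points of `E`, not all equal to `T`,
there is an inert prime `p` such that each point reduces to `O` or `T` modulo `p`, at least one of
them to `O`. -/
theorem key {ι : Type*} [Fintype ι] (P : ι → Pt) (hT : ∃ i, P i ≠ T) :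
    ∃ (p : ℕ) (hp : Inert p), haveI : Fact p.Prime := ⟨hp.1⟩
      (∀ i, P i ∈ Ker p ∨ P i + T ∈ Ker p) ∧ ∃ i, P i ∈ Ker p := by
  classical
  by_cases hA : ∃ i, ∃ n : ℤ, P i = n • P0
  · obtain ⟨i, n, hn⟩ := hA
    refine ⟨5, five_inert, ?_⟩
    have : Fact (Nat.Prime 5) := ⟨five_inert.1⟩
    have hP0 : P0 ∈ Ker 5 := Or.inr P0_mem_Ker
    refine ⟨fun j => ?_, i, ?_⟩
    · obtain ⟨m, hm | hm⟩ := mordell_weil (P j)
      · left; rw [hm]; exact (Ker 5).zsmul_mem hP0 m
      · right; rw [hm, add_assoc, T_add_T, add_zero]; exact (Ker 5).zsmul_mem hP0 m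
    · rw [hn]; exact (Ker 5).zsmul_mem hP0 n
  · push Not at hA
    have hB : ∀ i, ∃ n : ℤ, P i = n • P0 + T := by
      intro i
      obtain ⟨n, hn | hn⟩ := mordell_weil (P i)
      · exact absurd hn (hA i n)
      · exact ⟨n, hn⟩
    choose n hn using hB
    have hne : ∃ i, n i ≠ 0 := by
      obtain ⟨i, hi⟩ := hT
      refine ⟨i, ?_⟩
      intro h1
      apply hi
      rw [hn i, h1, zero_zsmul, zero_add]
    set g : ℤ := Finset.univ.gcd n with hg
    have hg0 : g ≠ 0 := by
      intro h1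
      obtain ⟨i, hi⟩ := hne
      rw [hg, Finset.gcd_eq_zero_iff] at h1
      exact hi (h1 i (Finset.mem_univ i))
    have hfin : FiniteMultiplicity (2 : ℤ) g := by
      rw [Int.finiteMultiplicity_iff]
      exact ⟨by norm_num, hg0⟩
    obtain ⟨c, hc1, hc2⟩ := hfin.exists_eq_pow_mul_and_not_dvd
    set s := multiplicity (2 : ℤ) g with hs
    have hdiv : ∀ i, ∃ m : ℤ, n i = 2 ^ s * m := by
      intro i
      have h1 : g ∣ n i := Finset.gcd_dvd (Finset.mem_univ i)
      have h2 : (2 : ℤ) ^ s ∣ g := ⟨c, hc1⟩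
      exact h2.trans h1
    choose m hm using hdiv
    have hodd : ∃ i, Odd (m i) := by
      by_contra hcon
      push Not at hcon
      apply hc2
      have h1 : (2 : ℤ) ^ (s + 1) ∣ g := by
        apply Finset.dvd_gcd
        intro i _
        obtain ⟨l, hl⟩ := Int.not_odd_iff_even.1 (hcon i)
        exact ⟨l, by rw [hm i, hl]; ring⟩
      obtain ⟨l, hl⟩ := h1
      refine ⟨l, ?_⟩
      have h2 : (2 : ℤ) ^ s * c = 2 ^ s * (2 * l) := by rw [← hc1, hl]; ring
      exact mul_left_cancel₀ (by positivity) h2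
    obtain ⟨p, hp, hv⟩ := exists_red s
    refine ⟨p, hp, ?_⟩
    have : Fact p.Prime := ⟨hp.1⟩
    set Q := ((2 : ℤ) ^ s) • P0 with hQ
    have hQ0 : Q ≠ 0 := two_pow_ne s
    have hQT : Q + T ∈ Ker p := (add_T_mem_Ker hp.2.1 hQ0).2 (Or.inr hv)
    have h2Q : Q + Q ∈ Ker p := by
      have : Q + Q = (Q + T) + (Q + T) := by
        have : (Q + T) + (Q + T) = Q + Q + (T + T) := by abel
        rw [this, T_add_T, add_zero]
      rw [this]; exact (Ker p).add_mem hQT hQT
    have hmul : ∀ i, (n i) • P0 = (m i) • Q := by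
      intro i
      rw [hQ, smul_smul, hm i, mul_comm]
    have hEven : ∀ i, Even (m i) → P i + T ∈ Ker p := by
      rintro i ⟨l, hl⟩
      have : P i + T = l • (Q + Q) := by
        rw [hn i, add_assoc, T_add_T, add_zero, hmul i, hl, add_zsmul, zsmul_add]
      rw [this]; exact (Ker p).zsmul_mem h2Q l
    have hOdd : ∀ i, Odd (m i) → P i ∈ Ker p := by
      rintro i ⟨l, hl⟩
      have : P i = l • (Q + Q) + (Q + T) := by
        rw [hn i, hmul i, hl, add_zsmul, one_zsmul, mul_comm, mul_zsmul, two_zsmul, add_assoc]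
      rw [this]; exact (Ker p).add_mem ((Ker p).zsmul_mem h2Q l) hQT
    refine ⟨fun i => ?_, ?_⟩
    · rcases Int.even_or_odd (m i) with h | h
      · exact Or.inr (hEven i h)
      · exact Or.inl (hOdd i h)
    · obtain ⟨i, hi⟩ := hodd
      exact ⟨i, hOdd i hi⟩

end Pool.Agent.H964R2.Lang
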