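import Mathlib

/-!
# Weighted homogeneous polynomials and scaling; primitive vectors
-/

namespace Pool.Agent.H964R2.Lang

open MvPolynomial

/-- the scaling factor of weight `m` -/
def chi {R : Type*} [CommRing R] {r : ℕ} (t : Fin r → R) (l : R) (m : (Fin r → ℕ) × ℕ) : R :=
  (∏ i, t i ^ m.1 i) * l ^ m.2

theorem chi_zero {R : Type*} [CommRing R] {r : ℕ} (t : Fin r → R) (l : R) : chi t l 0 = 1 := by
  simp [chi]

theorem chi_add {R : Type*} [CommRing R] {r : ℕ} (t : Fin r → R) (l : R) (m n : (Fin r → ℕ) × ℕ) :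
    chi t l (m + n) = chi t l m * chi t l n := by
  simp only [chi, Prod.fst_add, Prod.snd_add, Pi.add_apply, pow_add, Finset.prod_mul_distrib]
  ring

theorem chi_nsmul {R : Type*} [CommRing R] {r : ℕ} (t : Fin r → R) (l : R) (k : ℕ)
    (m : (Fin r → ℕ) × ℕ) : chi t l (k • m) = chi t l m ^ k := by
  induction k with
  | zero => rw [zero_nsmul, chi_zero, pow_zero]
  | succ k ih => rw [succ_nsmul, chi_add, ih, pow_succ]

theorem chi_sum {R : Type*} [CommRing R] {r : ℕ} (t : Fin r → R) (l : R) {α : Type*}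
    (s : Finset α) (f : α → (Fin r → ℕ) × ℕ) :
    chi t l (∑ a ∈ s, f a) = ∏ a ∈ s, chi t l (f a) := by
  classical
  induction s using Finset.induction_on with
  | empty => simp [chi_zero]
  | insert a s ha ih => rw [Finset.sum_insert ha, Finset.prod_insert ha, chi_add, ih]

theorem aeval_scale {R : Type*} [CommRing R] {r : ℕ} {σ : Type*} (t : Fin r → R) (l : R)
    {w : σ → (Fin r → ℕ) × ℕ} {φ : MvPolynomial σ ℤ} {d : (Fin r → ℕ) × ℕ}
    (h : IsWeightedHomogeneous w φ d) (v : σ → R) :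
    aeval (fun s => chi t l (w s) * v s) φ = chi t l d * aeval v φ := by
  classical
  rw [aeval_def, aeval_def, eval₂_eq, eval₂_eq, Finset.mul_sum]
  apply Finset.sum_congr rfl
  intro m hm
  have h1 : Finsupp.weight w m = d := h (mem_support_iff.1 hm)
  have h2 : ∏ s ∈ m.support, (chi t l (w s) * v s) ^ m s =
      chi t l d * ∏ s ∈ m.support, v s ^ m s := by
    rw [← h1, Finsupp.weight_apply, Finsupp.sum, chi_sum, ← Finset.prod_mul_distrib]
    apply Finset.prod_congr rfl
    intro s _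
    rw [chi_nsmul, mul_pow]
  rw [h2]; ring

/-- a nonzero rational vector has a multiple which is integral and primitive at `p` -/
theorem exists_primitive {k : ℕ} {p : ℕ} (hp : p.Prime) {z : Fin k → ℚ} (hz : z ≠ 0) :
    ∃ (l : ℚ) (ζ : Fin k → ℤ), l ≠ 0 ∧ (∀ j, (ζ j : ℚ) = l * z j) ∧ ∃ j, ¬ (p : ℤ) ∣ ζ j := by
  classical
  -- clear denominators
  have h1 : ∃ (n : ℤ) (w : Fin k → ℤ), n ≠ 0 ∧ ∀ j, (w j : ℚ) = n * z j := by
    refine ⟨∏ j, ((z j).den : ℤ), fun j => (z j).num * ∏ i ∈ Finset.univ.erase j, ((z i).den : ℤ),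
      ?_, ?_⟩
    · rw [Finset.prod_ne_zero_iff]
      intro j _
      exact_mod_cast (z j).den_ne_zero
    · intro j
      have h2 := Finset.mul_prod_erase Finset.univ (fun i => ((z i).den : ℤ)) (Finset.mem_univ j)
      rw [← h2]
      push_cast
      have h3 : ((z j).den : ℚ) * z j = (z j).num := by
        rw [mul_comm]; exact Rat.mul_den_eq_num (z j)
      calc ((z j).num : ℚ) * ∏ i ∈ Finset.univ.erase j, ((z i).den : ℚ)
          = (((z j).den : ℚ) * z j) * ∏ i ∈ Finset.univ.erase j, ((z i).den : ℚ) := by rw [h3]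
        _ = _ := by ring
  obtain ⟨n, w, hn, hw⟩ := h1
  set g : ℤ := Finset.univ.gcd w with hg
  have hw0 : ∃ j, w j ≠ 0 := by
    obtain ⟨j, hj⟩ := Function.ne_iff.1 hz
    refine ⟨j, ?_⟩
    intro h
    have h2 := hw j
    rw [h] at h2
    push_cast at h2
    have h3 : (n : ℚ) ≠ 0 := by exact_mod_cast hn
    exact hj ((mul_eq_zero.1 h2.symm).resolve_left h3)
  have hg0 : g ≠ 0 := by
    intro h
    obtain ⟨j, hj⟩ := hw0
    rw [hg, Finset.gcd_eq_zero_iff] at h
    exact hj (h j (Finset.mem_univ j))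
  have hdiv : ∀ j, ∃ m : ℤ, w j = g * m := fun j => Finset.gcd_dvd (Finset.mem_univ j)
  choose ζ hζ using hdiv
  have hg' : (g : ℚ) ≠ 0 := by exact_mod_cast hg0
  have hn' : (n : ℚ) ≠ 0 := by exact_mod_cast hn
  refine ⟨n / g, ζ, div_ne_zero hn' hg', ?_, ?_⟩
  · intro j
    have h2 := hw j
    rw [hζ j] at h2
    push_cast at h2
    field_simp
    linarith
  · by_contra hcon
    push Not at hcon
    have h3 : g * p ∣ g := by
      conv_rhs => rw [hg]
      apply Finset.dvd_gcd
      intro j _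
      rw [hζ j]
      exact mul_dvd_mul_left g (hcon j)
    have h4 : (p : ℤ) ∣ 1 := by
      have : g * p ∣ g * 1 := by rw [mul_one]; exact h3
      exact (mul_dvd_mul_iff_left hg0).1 this
    have h5 : p ∣ 1 := by exact_mod_cast h4
    exact hp.one_lt.ne' (Nat.dvd_one.1 h5)

end Pool.Agent.H964R2.Lang
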