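import Pool.Agent.H964R2.Lang.Coords
import Pool.Agent.H964R2.Lang.Scale

/-!
# Rational points on schemes over `E^r` whose fibres over `{O, T}^r ∖ {(T, …, T)}` have no points
modulo the inert primes
-/

namespace Pool.Agent.H964R2.Lang

open MvPolynomial

/-- Variables: `inl (i, 0) = A_i`, `inl (i, 1) = B_i`, `inl (i, 2) = Z_i` are the weighted
homogeneous coordinates (weights `2, 3, 1`) of the `i`-th factor `E : B² = A³ - 23 A Z⁴`
(`x = A/Z²`, `y = B/Z³`), `inr l` is the `l`-th fibre coordinate, of weight `ν l i` with respect to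
the `i`-th factor. The last component is the ordinary degree in the fibre coordinates. -/
def wt {r k : ℕ} (ν : Fin k → Fin r → ℕ) : (Fin r × Fin 3) ⊕ Fin k → (Fin r → ℕ) × ℕ
  | .inl (i, j) => (Pi.single i (![2, 3, 1] j), 0)
  | .inr l => (ν l, 1)

/-- the points `O = (1 : 1 : 0)` (`false`) and `T = (0 : 0 : 1)` (`true`) of `E` -/
def corner (R : Type*) [CommRing R] : Bool → Fin 3 → R
  | false => ![1, 1, 0]
  | true => ![0, 0, 1]

theorem chi_single {R : Type*} [CommRing R] {r : ℕ} (t : Fin r → R) (l : R) (i : Fin r) (n : ℕ) :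
    chi t l (Pi.single i n, 0) = t i ^ n := by
  classical
  rw [chi, pow_zero, mul_one, Finset.prod_eq_single i]
  · change t i ^ (Pi.single i n : Fin r → ℕ) i = t i ^ n
    rw [Pi.single_eq_same]
  · intro j _ hj
    change t j ^ (Pi.single i n : Fin r → ℕ) j = 1
    rw [Pi.single_eq_of_ne hj, pow_zero]
  · intro h; exact absurd (Finset.mem_univ i) h

theorem general {r k : ℕ} (ν : Fin k → Fin r → ℕ) {J : Type} (H : J → MvPolynomial ((Fin r × Fin 3) ⊕ Fin k) ℤ)
    (d : J → (Fin r → ℕ) × ℕ) (hH : ∀ j, IsWeightedHomogeneous (wt ν) (H j) (d j))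
    (hfib : ∀ p : ℕ, Inert p → ∀ e : Fin r → Bool, (∃ i, e i = false) → ∀ ζ : Fin k → ZMod p,
      (∀ j, aeval (Sum.elim (fun q => corner (ZMod p) (e q.1) q.2) ζ) (H j) = 0) → ζ = 0)
    (x y : Fin r → ℚ) (hE : ∀ i, y i ^ 2 = x i ^ 3 - 23 * x i) (z : Fin k → ℚ) (hz : z ≠ 0)
    (hX : ∀ j, aeval (Sum.elim (fun q => ![x q.1, y q.1, 1] q.2) z) (H j) = 0) :
    ∀ i, x i = 0 ∧ y i = 0 := by
  classical
  by_contra hcon
  have hne : ∃ i, x i ≠ 0 := by
    by_contra h
    push Not at h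
    apply hcon
    intro i
    refine ⟨h i, ?_⟩
    have := hE i
    rw [h i] at this
    have h2 : y i ^ 2 = 0 := by rw [this]; norm_num
    exact pow_eq_zero_iff two_ne_zero |>.1 h2
  obtain ⟨p, hp, A, B, Z, e, he, hall⟩ := key_coords x y hE hne
  have hpF : Fact p.Prime := ⟨hp.1⟩
  -- scaling of the fibre coordinates
  set tQ : Fin r → ℚ := fun i => (Z i : ℚ) with htQ
  have htQ0 : ∀ i, tQ i ≠ 0 := fun i => by
    have := (hall i).1
    rw [htQ]
    exact Int.cast_ne_zero.2 this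
  set z' : Fin k → ℚ := fun l => (∏ i, tQ i ^ ν l i) * z l with hz'
  have hz'0 : z' ≠ 0 := by
    obtain ⟨l, hl⟩ := Function.ne_iff.1 hz
    refine Function.ne_iff.2 ⟨l, ?_⟩
    rw [hz']
    exact mul_ne_zero (Finset.prod_ne_zero_iff.2 fun i _ => pow_ne_zero _ (htQ0 i)) hl
  obtain ⟨lam, ζ, hlam, hζ, l0, hl0⟩ := exists_primitive hp.1 hz'0
  -- the integral point
  set v : (Fin r × Fin 3) ⊕ Fin k → ℤ := Sum.elim (fun q => ![A q.1, B q.1, Z q.1] q.2) ζ with hv
  have hvQ : (fun s => ((v s : ℤ) : ℚ)) =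
      fun s => chi tQ lam (wt ν s) * (Sum.elim (fun q => ![x q.1, y q.1, 1] q.2) z) s := by
    funext s
    rcases s with ⟨i, j⟩ | l
    · have h0 := hall i
      have hZ : (Z i : ℚ) ≠ 0 := htQ0 i
      change (((![A i, B i, Z i] j : ℤ)) : ℚ) =
        chi tQ lam (Pi.single i (![2, 3, 1] j), 0) * ![x i, y i, 1] j
      rw [chi_single]
      fin_cases j
      · change ((A i : ℤ) : ℚ) = (Z i : ℚ) ^ 2 * x i
        rw [h0.2.1]; field_simp
      · change ((B i : ℤ) : ℚ) = (Z i : ℚ) ^ 3 * y i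
        rw [h0.2.2.1]; field_simp
      · change ((Z i : ℤ) : ℚ) = (Z i : ℚ) ^ 1 * 1
        ring
    · change ((ζ l : ℤ) : ℚ) = chi tQ lam (ν l, 1) * z l
      rw [hζ l, hz', chi]
      simp only [pow_one]
      ring
  have hv0 : ∀ j, aeval v (H j) = (0 : ℤ) := by
    intro j
    have h1 : ((aeval v (H j) : ℤ) : ℚ) = aeval (fun s => ((v s : ℤ) : ℚ)) (H j) := by
      have := MvPolynomial.map_aeval v (Int.castRingHom ℚ) (H j)
      rw [eq_intCast] at this
      rw [this, aeval_def]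
      congr 1
    rw [hvQ, aeval_scale tQ lam (hH j), hX j, mul_zero] at h1
    exact_mod_cast h1
  -- reduction modulo `p`
  have hvp : ∀ j, aeval (fun s => ((v s : ℤ) : ZMod p)) (H j) = (0 : ZMod p) := by
    intro j
    have := MvPolynomial.map_aeval v (Int.castRingHom (ZMod p)) (H j)
    rw [eq_intCast, hv0 j] at this
    rw [aeval_def]
    push_cast at this
    rw [this]
    congr 1
  set t : Fin r → ZMod p := fun i => if e i = false then (B i : ZMod p) / (A i : ZMod p) else (Z i : ZMod p) with ht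
  have hfacts : ∀ i, t i ≠ 0 ∧ ∀ j, ((![A i, B i, Z i] j : ℤ) : ZMod p) =
      t i ^ (![2, 3, 1] j : ℕ) * corner (ZMod p) (e i) j := by
    intro i
    obtain ⟨-, -, -, hO, hT⟩ := hall i
    rcases hei : e i with _ | _
    · obtain ⟨h1, h2, h3⟩ := hO hei
      have hZp : (Z i : ZMod p) = 0 := (ZMod.intCast_zmod_eq_zero_iff_dvd _ p).2 h1
      have hAp : (A i : ZMod p) ≠ 0 := fun h => h2 ((ZMod.intCast_zmod_eq_zero_iff_dvd _ p).1 h)
      have hBA : (B i : ZMod p) ^ 2 = (A i : ZMod p) ^ 3 := by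
        have := (ZMod.intCast_zmod_eq_zero_iff_dvd _ p).2 h3
        push_cast at this
        exact sub_eq_zero.1 this
      have hBp : (B i : ZMod p) ≠ 0 := by
        intro h
        rw [h] at hBA
        have : (A i : ZMod p) ^ 3 = 0 := by rw [← hBA]; ring
        exact hAp (pow_eq_zero_iff (by norm_num) |>.1 this)
      have hti : t i = (B i : ZMod p) / (A i : ZMod p) := by
        rw [ht]; simp only [hei, if_true]
      refine ⟨by rw [hti]; exact div_ne_zero hBp hAp, ?_⟩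
      intro j
      rw [hti]
      fin_cases j
      · change ((A i : ℤ) : ZMod p) = ((B i : ZMod p) / (A i : ZMod p)) ^ 2 * 1
        rw [div_pow, hBA]; field_simp
      · change ((B i : ℤ) : ZMod p) = ((B i : ZMod p) / (A i : ZMod p)) ^ 3 * 1
        rw [div_pow, ← hBA]; field_simp
      · change ((Z i : ℤ) : ZMod p) = ((B i : ZMod p) / (A i : ZMod p)) ^ 1 * 0
        rw [hZp]; ring
    · obtain ⟨h1, h2, h3⟩ := hT hei
      have hZp : (Z i : ZMod p) ≠ 0 := fun h => h3 ((ZMod.intCast_zmod_eq_zero_iff_dvd _ p).1 h)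
      have hAp : (A i : ZMod p) = 0 := (ZMod.intCast_zmod_eq_zero_iff_dvd _ p).2 h1
      have hBp : (B i : ZMod p) = 0 := (ZMod.intCast_zmod_eq_zero_iff_dvd _ p).2 h2
      have hti : t i = (Z i : ZMod p) := by
        rw [ht]; simp [hei]
      refine ⟨by rw [hti]; exact hZp, ?_⟩
      intro j
      rw [hti]
      fin_cases j
      · change ((A i : ℤ) : ZMod p) = (Z i : ZMod p) ^ 2 * 0
        rw [hAp]; ring
      · change ((B i : ℤ) : ZMod p) = (Z i : ZMod p) ^ 3 * 0
        rw [hBp]; ring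
      · change ((Z i : ℤ) : ZMod p) = (Z i : ZMod p) ^ 1 * 1
        ring
  set c : Fin k → ZMod p := fun l => (∏ i, t i ^ ν l i)⁻¹ * (ζ l : ZMod p) with hc
  have hprod : ∀ l, (∏ i, t i ^ ν l i) ≠ 0 := fun l =>
    Finset.prod_ne_zero_iff.2 fun i _ => pow_ne_zero _ (hfacts i).1
  have hvs : (fun s => ((v s : ℤ) : ZMod p)) =
      fun s => chi t 1 (wt ν s) * (Sum.elim (fun q => corner (ZMod p) (e q.1) q.2) c) s := by
    funext s
    rcases s with ⟨i, j⟩ | l
    · change ((![A i, B i, Z i] j : ℤ) : ZMod p) =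
        chi t 1 (Pi.single i (![2, 3, 1] j), 0) * corner (ZMod p) (e i) j
      rw [chi_single]
      exact (hfacts i).2 j
    · change ((ζ l : ℤ) : ZMod p) = chi t 1 (ν l, 1) * c l
      rw [hc, chi]
      simp only [one_pow, mul_one]
      rw [mul_inv_cancel_left₀ (hprod l)]
  have hc0 : c = 0 := by
    apply hfib p hp e he c
    intro j
    have h1 := hvp j
    rw [hvs, aeval_scale t 1 (hH j)] at h1
    refine (mul_eq_zero.1 h1).resolve_left ?_
    rw [chi, one_pow, mul_one]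
    exact Finset.prod_ne_zero_iff.2 fun i _ => pow_ne_zero _ (hfacts i).1
  apply hl0
  rw [← ZMod.intCast_zmod_eq_zero_iff_dvd]
  have h1 := congrFun hc0 l0
  rw [hc] at h1
  exact (mul_eq_zero.1 h1).resolve_left (inv_ne_zero (hprod l0))

end Pool.Agent.H964R2.Lang
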